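import Pool.Agent.Run7.h437.TS.Exp
import Pool.Agent.Y164.PS.Sym

set_option autoImplicit false
set_option linter.all false

open Polynomial
open Pool.Agent.N874.PP Pool.Agent.TH115.GD
open scoped Classical

namespace Run7.h437.TS

open Run7.h875.TS

theorem ringChar_ne_two {k : Type} [Field k] (h6 : (6 : k) ≠ 0) : ringChar k ≠ 2 := by
  intro h
  have h2 : ((2 : ℕ) : k) = 0 := by
    rw [ringChar.spec, h]
  apply h6
  have : (6 : k) = ((2 : ℕ) : k) * 3 := by norm_num
  rw [this, h2, zero_mul]

/-- Quadratic reciprocity at the point `t`. -/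
theorem recip_pt {k F : Type} [Field k] [Fintype k] [Field F] [Fintype F] [Algebra k F]
    (hk : ringChar k ≠ 2) (t : F) (hfr : (minpoly k t).natDegree = Module.finrank k F)
    {P : k[X]} (hP : P.Monic) (hi : Irreducible P) (hPt : aeval t P ≠ 0) :
    (∃ z : k[X], P ∣ z ^ 2 - minpoly k t) ↔
      quadraticChar k (-1) ^ (P.natDegree * (minpoly k t).natDegree) *
        quadraticChar F (aeval t P) = 1 := by
  have hint : IsIntegral k t := Algebra.IsIntegral.isIntegral t
  have hQm := minpoly.monic hint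
  have hQi := minpoly.irreducible hint
  have hnd : ¬ P ∣ minpoly k t := by
    intro h
    have h1 : Associated P (minpoly k t) := hi.associated_of_dvd hQi h
    have h2 : P = minpoly k t := eq_of_monic_of_associated hP hQm h1
    rw [h2] at hPt
    exact hPt (minpoly.aeval k t)
  rw [← Pool.Agent.Y164.PS.lam_irr hk hP hi hnd]
  have h1 := Pool.Agent.H341R2.Sharp.qc_aeval (F := k) (E := F) hk P t
  rw [hfr, Nat.div_self Module.finrank_pos, pow_one] at h1
  have h2 : quadraticChar F (aeval t P) = Pool.Agent.H341R2.Sharp.lam P (minpoly k t) := by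
    convert h1
  rw [h2]
  have h3 : Pool.Agent.H341R2.Sharp.lam (minpoly k t) P =
      quadraticChar k (-1) ^ (P.natDegree * (minpoly k t).natDegree) *
        Pool.Agent.H341R2.Sharp.lam P (minpoly k t) := by
    unfold Pool.Agent.H341R2.Sharp.lam
    rw [resultant_comm, map_mul, map_pow]
  rw [h3]

theorem dsc_ne {k ι : Type} [Field k] {a b p : ι → k[X]} (hD : Data a b p) (j : ι) :
    dsc (a j) (b j) ≠ 0 := by
  intro h
  apply hD.pnd j
  rw [h]
  exact dvd_zero _

/-- `p j` divides the product exactly once. -/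
theorem exact_B {k ι : Type} [Field k] {a b p : ι → k[X]} (hD : Data a b p) (B : Finset ι) (j : ι)
    (hj : j ∈ B) : p j ∣ ∏ i ∈ B, (-dsc (a i) (b i)) ∧
      ¬ (p j) ^ 2 ∣ ∏ i ∈ B, (-dsc (a i) (b i)) := by
  refine exact_prod (hD.pirr j) B _ j hj ?_ ?_ ?_
  · rw [dvd_neg]; exact hD.pd j
  · rw [dvd_neg]; exact hD.pnd j
  · intro i hi hij
    rw [dvd_neg]
    exact hD.pne j i (Ne.symm hij)

/-- The bound for one factor. -/
theorem abs_fac {x n : ℝ} (hx : |x| ≤ 1) (hn0 : 0 ≤ n) (hn3 : n ≤ 3) : |(x + (2 - n)) / 3| ≤ 1 := by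
  rw [abs_le] at hx ⊢
  constructor <;> linarith

theorem abs_fac2 {c x : ℝ} (hc : |c| ≤ 1) (hx : |x| ≤ 1) : |(c * x + 1) / 2| ≤ 1 := by
  have h : |c * x| ≤ 1 := by
    rw [abs_mul]
    exact mul_le_one₀ hc (abs_nonneg _) hx
  rw [abs_le] at h ⊢
  constructor <;> linarith

theorem natDegree_prod_dsc {k ι : Type} [Field k] [Fintype ι] (a b : ι → k[X]) (B : Finset ι) :
    (∏ i ∈ B, (-dsc (a i) (b i))).natDegree ≤ ∑ i, (dsc (a i) (b i)).natDegree := by
  refine (natDegree_prod_le _ _).trans ?_
  simp_rw [natDegree_neg]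
  exact Finset.sum_le_sum_of_subset (Finset.subset_univ _)

theorem natDegree_prod_S {k : Type} [Field k] (S A : Finset k[X]) (h : A ⊆ S) :
    (∏ P ∈ A, P).natDegree ≤ dg S := by
  refine (natDegree_prod_le _ _).trans ?_
  exact Finset.sum_le_sum_of_subset h

/-- **LAST**. -/
theorem last (hW : S_W) (hStk : S_STK) : S_LAST := by
  intro k ι _ _ _ a b p h6 hD
  obtain ⟨C₁, hW⟩ := hW k ι a b p h6 hD
  haveI := Fintype.ofFinite ι
  haveI := Fintype.ofFinite k
  have hk := ringChar_ne_two h6
  set dd : ℕ := ∑ i, (dsc (a i) (b i)).natDegree with hdd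
  refine ⟨(1 / 3) ^ Fintype.card ι, 4 ^ Fintype.card ι * C₁ * (1 + dd) + (3 + dd), by positivity, ?_⟩
  intro S η hS m hm
  obtain ⟨F, _, _, _, hfr, hcd, hsum, hfew⟩ := trs k m hm
  set sP : k[X] → ℝ := fun P =>
    ((quadraticChar k (-1) ^ (P.natDegree * m) : ℤ) : ℝ) * (if η P then 1 else -1) with hsP
  set σ : ι → F → ℝ := fun j t => chi (- aeval t (dsc (a j) (b j))) with hσ
  set n : ι → F → ℝ := fun j t => ((rts (a j) (b j) t).card : ℝ) with hn
  set x : k[X] → F → ℝ := fun P t => chi (aeval t P) with hx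
  have hsP1 : ∀ P, |sP P| = 1 := by
    intro P
    rw [hsP]
    dsimp only
    have h1 : |((quadraticChar k (-1) ^ (P.natDegree * m) : ℤ) : ℝ)| = 1 := by
      push_cast
      rw [abs_pow]
      rcases quadraticChar_dichotomy (F := k) (a := -1) (by simp) with h | h <;> rw [h] <;> simp
    rw [abs_mul, h1]
    split_ifs <;> simp
  have hn0 : ∀ j t, 0 ≤ n j t := fun j t => by rw [hn]; positivity
  have hn3 : ∀ j t, n j t ≤ 3 := fun j t => by
    rw [hn]; dsimp only; exact_mod_cast card_rts_le (a j) (b j) t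
  -- the main sum
  have hmain : |(∑ t : F, (∏ j, (σ j t + (2 - n j t))) * ∏ P ∈ S, (sP P * x P t + 1)) - cd F| ≤
      2 ^ S.card * (4 ^ Fintype.card ι * (C₁ * (1 + dd + dg S) * √(cd F))) := by
    have hE1 : C₁ * √(cd F) ≤ C₁ * (1 + dd + dg S) * √(cd F) := by
      refine mul_le_mul_of_nonneg_right ?_ (Real.sqrt_nonneg _)
      have : (0 : ℝ) ≤ C₁ * (dd + dg S) := by positivity
      linarith
    -- all the characters
    have hchar : ∀ A ⊆ S, ∀ B : Finset ι, ¬ (A = ∅ ∧ B = ∅) → ∀ J : Finset ι,
        |∑ t : F, (∏ P ∈ A, x P t) * (∏ j ∈ B, σ j t) * ∏ j ∈ J, n j t| ≤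
          C₁ * (1 + dd + dg S) * √(cd F) := by
      intro A hA B hAB J
      obtain ⟨hW1, hW2, -⟩ := hW J
      have h2 : ∀ t : F, (∏ P ∈ A, x P t) * (∏ j ∈ B, σ j t) * ∏ j ∈ J, n j t =
          chi (aeval t ((∏ P ∈ A, P) * ∏ i ∈ B, (-dsc (a i) (b i)))) *
            ∏ j ∈ J, ((rts (a j) (b j) t).card : ℝ) := by
        intro t
        rw [map_mul, chi_mul, map_prod, map_prod, chi_prod, chi_prod]
        simp only [map_neg]
        rfl
      simp_rw [h2]
      have hns : ∀ (c : k) (y : k[X]),
          (∏ P ∈ A, P) * ∏ i ∈ B, (-dsc (a i) (b i)) ≠ C c * y ^ 2 := by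
        by_cases hB : B = ∅
        · subst hB
          have hA0 : A.Nonempty := Finset.nonempty_iff_ne_empty.2 fun h => hAB ⟨h, rfl⟩
          obtain ⟨P, hP⟩ := hA0
          obtain ⟨hPm, hPi, -⟩ := hS P (hA hP)
          obtain ⟨h3, h4⟩ := exact_prod hPi A (fun P => P) P hP (dvd_refl _)
            (by
              intro h
              have := hPi.prime.not_unit
              rw [sq] at h
              have h5 : P ∣ 1 := by
                have : P * P ∣ P * 1 := by rwa [mul_one]
                exact (mul_dvd_mul_iff_left hPi.ne_zero).1 this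
              exact hPi.not_isUnit (isUnit_of_dvd_one h5))
            (by
              intro P' hP' hne h
              obtain ⟨hPm', hPi', -⟩ := hS P' (hA hP')
              exact hne (eq_of_monic_of_associated hPm hPm' (hPi.associated_of_dvd hPi' h)).symm)
          rw [Finset.prod_empty, mul_one]
          exact not_const_sq hPi h3 h4
        · obtain ⟨j, hj⟩ := Finset.nonempty_iff_ne_empty.2 hB
          obtain ⟨h3, h4⟩ := exact_B hD B j hj
          refine not_const_sq (hD.pirr j) (h3.mul_left _) ?_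
          intro h5
          have h6 : ¬ p j ∣ ∏ P ∈ A, P := by
            intro h
            obtain ⟨P, hP, hP2⟩ := (Prime.dvd_finsetProd_iff (hD.pirr j).prime _).1 h
            obtain ⟨hPm, hPi, hPn⟩ := hS P (hA hP)
            exact hPn j ((hD.pirr j).associated_of_dvd hPi hP2).symm.dvd
          exact h4 ((hD.pirr j).prime.pow_dvd_of_dvd_mul_left 2 h6 h5)
      refine (hW2 _ hns F).trans ?_
      refine mul_le_mul_of_nonneg_right ?_ (Real.sqrt_nonneg _)
      have h3 : ((∏ P ∈ A, P) * ∏ i ∈ B, (-dsc (a i) (b i))).natDegree ≤ dg S + dd :=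
        natDegree_mul_le.trans (add_le_add (natDegree_prod_S S A hA) (natDegree_prod_dsc a b B))
      have h4 : ((((∏ P ∈ A, P) * ∏ i ∈ B, (-dsc (a i) (b i))).natDegree : ℕ) : ℝ) ≤
          ((dg S + dd : ℕ) : ℝ) := by exact_mod_cast h3
      push_cast at h4
      have h5 : (0 : ℝ) ≤ C₁ := by positivity
      nlinarith
    refine expand_e _ sP x (cd F) _ S (fun P => (hsP1 P).le) ?_ ?_
    · have h1 := expand_s (fun _ => (1 : ℝ)) σ n (cd F)
        (C₁ * (1 + dd + dg S) * √(cd F)) Finset.univ (by
          intro J _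
          simp only [one_mul]
          exact ((hW J).1 F).trans hE1) (by
          intro B _ hB J _ _
          have := hchar ∅ (Finset.empty_subset _) B (fun h => hB h.2) J
          simpa using this)
      rw [Finset.card_univ] at h1
      simpa using h1
    · intro A hA hA0
      have h1 := expand_s (fun t => ∏ P ∈ A, x P t) σ n 0
        (C₁ * (1 + dd + dg S) * √(cd F)) Finset.univ (by
          intro J _
          have := hchar A hA ∅ (fun h => hA0 h.1) J
          simpa using this) (by
          intro B _ hB J _ _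
          exact hchar A hA B (fun h => hB h.2) J)
      rw [Finset.card_univ, sub_zero] at h1
      refine le_trans (le_of_eq ?_) h1
      congr 1
      exact Finset.sum_congr rfl fun t _ => mul_comm _ _
  -- pointwise
  set cond : k[X] → Prop := fun Q => (∀ j, ¬ Q ∣ dsc (a j) (b j) ∧ Ty3 (a j) (b j) Q) ∧ Q ∉ S ∧
          ∀ P ∈ S, (∃ z : k[X], P ∣ z ^ 2 - Q) ↔ η P with hcond
  set φ : k[X] → ℝ := fun Q => if cond Q then 1 else 0 with hφ
  set G : F → Prop := fun t => (minpoly k t).natDegree = m ∧
    (∀ j, aeval t (dsc (a j) (b j)) ≠ 0) ∧ ∀ P ∈ S, aeval t P ≠ 0 with hG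
  have habs : ∀ t : F, |(∏ j, ((σ j t + (2 - n j t)) / 3)) * ∏ P ∈ S, ((sP P * x P t + 1) / 2)| ≤ 1 := by
    intro t
    rw [abs_mul, Finset.abs_prod, Finset.abs_prod]
    refine mul_le_one₀ (Finset.prod_le_one (fun _ _ => abs_nonneg _) fun j _ => ?_)
      (Finset.prod_nonneg fun _ _ => abs_nonneg _)
      (Finset.prod_le_one (fun _ _ => abs_nonneg _) fun P _ => ?_)
    · exact abs_fac (abs_chi_le _) (hn0 _ _) (hn3 _ _)
    · exact abs_fac2 (hsP1 P).le (abs_chi_le _)
  have hpt : ∀ t : F, (∏ j, ((σ j t + (2 - n j t)) / 3)) * ∏ P ∈ S, ((sP P * x P t + 1) / 2) ≤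
      (if (minpoly k t).natDegree = m then φ (minpoly k t) else 0) + (if G t then 0 else 1) := by
    intro t
    by_cases hGt : G t
    · rw [if_pos hGt, add_zero, if_pos hGt.1]
      by_cases hc : cond (minpoly k t)
      · rw [hφ]
        dsimp only
        rw [if_pos hc]
        exact (le_abs_self _).trans (habs t)
      · rw [hφ]
        dsimp only
        rw [if_neg hc]
        apply le_of_eq
        by_contra hne
        apply hc
        rw [mul_eq_zero, not_or, Finset.prod_eq_zero_iff, Finset.prod_eq_zero_iff] at hne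
        push Not at hne
        obtain ⟨hne1, hne2⟩ := hne
        obtain ⟨hdeg, hdsc, hPS⟩ := hGt
        refine ⟨fun j => ⟨fun h => hdsc j ((aeval_zero_iff t _).2 h), ?_⟩, ?_, ?_⟩
        · -- inert
          have h1 := hne1 j (Finset.mem_univ _)
          have h2 := hStk k F (a j) (b j) t h6 (hdsc j)
          have h3 : (rts (a j) (b j) t).card = 0 := by
            rcases h2 with ⟨h2, h4 | h4⟩ | ⟨h2, h4⟩
            · exact h4
            · exfalso
              apply h1
              rw [hσ, hn]
              dsimp only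
              rw [h2, h4]
              norm_num
            · exfalso
              apply h1
              rw [hσ, hn]
              dsimp only
              rw [h2, h4]
              norm_num
          intro c hc
          unfold RtM at hc
          have h5 := (aeval_zero_iff t _).2 hc
          have h6 : aeval t c ∈ rts (a j) (b j) t := by
            unfold rts
            rw [Finset.mem_filter]
            refine ⟨Finset.mem_univ _, ?_⟩
            simpa using h5
          rw [Finset.card_eq_zero] at h3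
          rw [h3] at h6
          simp at h6
        · intro h
          exact hPS _ h (minpoly.aeval k t)
        · intro P hP
          obtain ⟨hPm, hPi, -⟩ := hS P hP
          have h1 := hne2 P hP
          have h2 := recip_pt hk t (by rw [hdeg, hfr]) hPm hPi (hPS P hP)
          rw [h2, hdeg]
          have h3 : sP P * x P t ≠ -1 := by
            intro h
            apply h1
            rw [h]
            norm_num
          rw [hsP, hx] at h3
          dsimp only at h3
          unfold chi at h3
          rcases quadraticChar_dichotomy (F := k) (a := -1) (by simp) with h | h <;>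
            rcases quadraticChar_dichotomy (F := F) (a := aeval t P) (hPS P hP) with h' | h' <;>
            rw [h, h'] at h3 <;> rw [h, h'] <;>
            rcases neg_one_pow_eq_or ℤ (P.natDegree * m) with h'' | h'' <;>
            (try rw [h''] at h3) <;> (try rw [h'']) <;>
            by_cases hη : η P <;> simp [hη] at h3 ⊢
    · rw [if_neg hGt]
      have h1 : (0 : ℝ) ≤ (if (minpoly k t).natDegree = m then φ (minpoly k t) else 0) := by
        split_ifs
        · rw [hφ]; dsimp only; split_ifs <;> norm_num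
        · exact le_refl _
      have h2 := (le_abs_self _).trans (habs t)
      linarith
  have hsum2 : ∑ t : F, (∏ j, ((σ j t + (2 - n j t)) / 3)) * ∏ P ∈ S, ((sP P * x P t + 1) / 2) ≤
      (m : ℝ) * ∑ Q ∈ irrD k m, φ Q + ((Finset.univ.filter fun t : F => ¬ G t).card : ℝ) := by
    refine (Finset.sum_le_sum fun t _ => hpt t).trans (le_of_eq ?_)
    rw [Finset.sum_add_distrib, hsum φ, ← Finset.sum_filter]
    congr 1
    rw [Finset.sum_ite, Finset.sum_const_zero, zero_add, Finset.sum_const, nsmul_eq_mul, mul_one]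
  have hbad : ((Finset.univ.filter fun t : F => ¬ G t).card : ℝ) ≤ 2 * √(cd F) + dd + dg S := by
    have h1 : (Finset.univ.filter fun t : F => ¬ G t) ⊆
        (Finset.univ.filter fun t : F => (minpoly k t).natDegree ≠ m) ∪
        ((Finset.univ.biUnion fun j => Finset.univ.filter fun t : F =>
          aeval t (dsc (a j) (b j)) = 0) ∪
        (S.biUnion fun P => Finset.univ.filter fun t : F => aeval t P = 0)) := by
      intro t ht
      rw [Finset.mem_filter] at ht
      rw [Finset.mem_union, Finset.mem_union, Finset.mem_filter, Finset.mem_biUnion,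
        Finset.mem_biUnion]
      by_contra hcon
      push Not at hcon
      obtain ⟨h1, h2, h3⟩ := hcon
      apply ht.2
      refine ⟨h1 (Finset.mem_univ _), fun j h => ?_, fun P hP h => ?_⟩
      · exact h2 j (Finset.mem_univ _) (by simp [h])
      · exact h3 P hP (by simp [h])
    have h2 := (Finset.card_le_card h1).trans ((Finset.card_union_le _ _).trans
      (add_le_add le_rfl ((Finset.card_union_le _ _).trans (add_le_add Finset.card_biUnion_le
        Finset.card_biUnion_le))))
    have h3 : ∑ j : ι, (Finset.univ.filter fun t : F => aeval t (dsc (a j) (b j)) = 0).card ≤ dd :=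
      Finset.sum_le_sum fun j _ => card_zero_le (dsc_ne hD j)
    have h4 : ∑ P ∈ S, (Finset.univ.filter fun t : F => aeval t P = 0).card ≤ dg S :=
      Finset.sum_le_sum fun P hP => card_zero_le (hS P hP).1.ne_zero
    have h5 : ((Finset.univ.filter fun t : F => ¬ G t).card : ℝ) ≤
        ((Finset.univ.filter fun t : F => (minpoly k t).natDegree ≠ m).card : ℝ) + (dd + dg S) := by
      exact_mod_cast h2.trans (add_le_add le_rfl (add_le_add h3 h4))
    linarith
  have hfac : ∑ t : F, (∏ j, ((σ j t + (2 - n j t)) / 3)) * ∏ P ∈ S, ((sP P * x P t + 1) / 2) =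
      (1 / 3) ^ Fintype.card ι * (1 / 2) ^ S.card *
        ∑ t : F, (∏ j, (σ j t + (2 - n j t))) * ∏ P ∈ S, (sP P * x P t + 1) := by
    rw [Finset.mul_sum]
    refine Finset.sum_congr rfl fun t _ => ?_
    rw [Finset.prod_div_distrib, Finset.prod_div_distrib, Finset.prod_const, Finset.prod_const,
      Finset.card_univ, one_div_pow, one_div_pow]
    ring
  have hφcard : ∑ Q ∈ irrD k m, φ Q = (((irrD k m).filter fun Q => cond Q).card : ℝ) := by
    rw [hφ]
    rw [Finset.sum_ite, Finset.sum_const_zero, add_zero, Finset.sum_const, nsmul_eq_mul, mul_one]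
  rw [hfac, hφcard] at hsum2
  suffices hsuf : (1 / 3 : ℝ) ^ Fintype.card ι * (1 / 2) ^ S.card * (Nat.card k : ℝ) ^ m / m -
      ((4 ^ Fintype.card ι * C₁ * (1 + dd) + (3 + dd) : ℕ) : ℝ) * (1 + dg S) *
        √((Nat.card k : ℝ) ^ m) ≤ (((irrD k m).filter fun Q => cond Q).card : ℝ) by
    convert hsuf
  set Nc : ℝ := (((irrD k m).filter fun Q => cond Q).card : ℝ) with hNc
  rw [← hcd]
  set s : ℝ := √(cd F) with hs
  have hs1 : 1 ≤ s := one_le_sqrt_cd
  set c3 : ℝ := (1 / 3) ^ Fintype.card ι with hc3
  set c2 : ℝ := (1 / 2) ^ S.card with hc2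
  have hc3p : 0 < c3 := by positivity
  have hc3l : c3 ≤ 1 := pow_le_one₀ (by norm_num) (by norm_num)
  have hc2p : 0 < c2 := by positivity
  have hc22 : c2 * 2 ^ S.card = 1 := by
    rw [hc2, ← mul_pow]; norm_num
  have hmain2 := (abs_le.1 hmain).1
  have hm1 : (1 : ℝ) ≤ m := by exact_mod_cast hm
  -- `m Nc ≥ c3 c2 cd F - error`
  have hkey : c3 * c2 * cd F - (4 ^ Fintype.card ι * C₁ * (1 + dd) + (3 + dd)) * (1 + dg S) * s ≤
      m * Nc := by
    have h1 : c3 * c2 * (cd F - 2 ^ S.card * (4 ^ Fintype.card ι * (C₁ * (1 + dd + dg S) * s))) ≤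
        m * Nc + (2 * s + dd + dg S) := by
      refine le_trans ?_ (hsum2.trans (add_le_add le_rfl hbad))
      refine mul_le_mul_of_nonneg_left ?_ (by positivity)
      linarith
    have h2 : c3 * c2 * (2 ^ S.card * (4 ^ Fintype.card ι * (C₁ * (1 + dd + dg S) * s))) ≤
        4 ^ Fintype.card ι * C₁ * (1 + dd) * (1 + dg S) * s := by
      have h3 : c3 * c2 * (2 ^ S.card * (4 ^ Fintype.card ι * (C₁ * (1 + dd + dg S) * s))) =
          c3 * (c2 * 2 ^ S.card) * (4 ^ Fintype.card ι * (C₁ * (1 + dd + dg S) * s)) := by ring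
      rw [h3, hc22, mul_one]
      have h4 : (0 : ℝ) ≤ 4 ^ Fintype.card ι * (C₁ * (1 + dd + dg S) * s) := by positivity
      have h5 : c3 * (4 ^ Fintype.card ι * (C₁ * (1 + dd + dg S) * s)) ≤
          1 * (4 ^ Fintype.card ι * (C₁ * (1 + dd + dg S) * s)) :=
        mul_le_mul_of_nonneg_right hc3l h4
      refine h5.trans ?_
      have h6 : (1 + dd + dg S : ℝ) ≤ (1 + dd) * (1 + dg S) := by
        have : (0 : ℝ) ≤ (dd : ℝ) * (dg S : ℝ) := by positivity
        nlinarith
      calc 1 * (4 ^ Fintype.card ι * (C₁ * (1 + dd + dg S) * s)) =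
          4 ^ Fintype.card ι * C₁ * s * (1 + dd + dg S) := by ring
        _ ≤ 4 ^ Fintype.card ι * C₁ * s * ((1 + dd) * (1 + dg S)) :=
            mul_le_mul_of_nonneg_left h6 (by positivity)
        _ = _ := by ring
    have h3 : 2 * s + dd + dg S ≤ (3 + dd) * (1 + dg S) * s := by
      have h4 : (0 : ℝ) ≤ (dd : ℝ) := by positivity
      have h5 : (0 : ℝ) ≤ (dg S : ℝ) := by positivity
      have h6 : (2 + dd + dg S : ℝ) * s ≤ (3 + dd) * (1 + dg S) * s := by
        refine mul_le_mul_of_nonneg_right ?_ (by linarith)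
        nlinarith [mul_nonneg h4 h5]
      nlinarith [mul_nonneg h4 (by linarith : (0:ℝ) ≤ s - 1), mul_nonneg h5 (by linarith : (0:ℝ) ≤ s - 1)]
    nlinarith
  have h1 : c3 * c2 * cd F / m ≤ Nc + (4 ^ Fintype.card ι * C₁ * (1 + dd) + (3 + dd)) * (1 + dg S) * s := by
    rw [div_le_iff₀ (by linarith)]
    have h2 : (0 : ℝ) ≤ (4 ^ Fintype.card ι * C₁ * (1 + dd) + (3 + dd)) * (1 + dg S) * s := by
      positivity
    nlinarith
  push_cast
  linarith

end Run7.h437.TS
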