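import Pool.Agent.Run7.h875.TS.StmA

set_option autoImplicit false
set_option linter.all false

open Polynomial
open scoped Classical

namespace Run7.h437.TS

open Run7.h875.TS

theorem mem_irrD {k : Type} [Field k] [Finite k] {m : ℕ} {Q : k[X]} :
    Q ∈ irrD k m ↔ Q.Monic ∧ Irreducible Q ∧ Q.natDegree = m := by
  unfold irrD
  rw [Set.Finite.mem_toFinset]
  rfl

theorem sum_pow_le (q : ℕ) (hq : 2 ≤ q) (D : ℕ) :
    ∑ d ∈ Finset.Icc 1 D, q ^ d ≤ 2 * q ^ D := by
  induction D with
  | zero => simp
  | succ D ih =>
    rw [Finset.sum_Icc_succ_top (by omega)]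
    have : 2 * q ^ D ≤ q ^ (D + 1) := by rw [pow_succ, mul_comm]; gcongr
    omega

theorem trs : S_TRS := by
  intro k _ _ m hm
  obtain ⟨p, hp⟩ := CharP.exists k
  haveI : Fact p.Prime := ⟨CharP.char_is_prime k p⟩
  haveI : NeZero m := ⟨hm.ne'⟩
  letI : Fintype (FiniteField.Extension k p m) := Fintype.ofFinite _
  have hq : 2 ≤ Nat.card k := Finite.one_lt_card
  have hcard := FiniteField.natCard_extension k p m
  have hcd : cd (FiniteField.Extension k p m) = (Nat.card k : ℝ) ^ m := by
    unfold cd
    rw [hcard]
    push_cast
    rfl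
  have hint : ∀ t : FiniteField.Extension k p m, IsIntegral k t := fun t =>
    Algebra.IsIntegral.isIntegral t
  refine ⟨FiniteField.Extension k p m, inferInstance, inferInstance, inferInstance,
    FiniteField.finrank_extension k p m, hcd, ?_, ?_⟩
  · intro φ
    have h1 : ∀ Q ∈ irrD k m, ((Finset.univ.filter fun t : FiniteField.Extension k p m =>
        (minpoly k t).natDegree = m).filter fun t => minpoly k t = Q).card = m := by
      intro Q hQ
      obtain ⟨hmon, hirr, hdeg⟩ := mem_irrD.1 hQ
      have hdvd : Q ∣ X ^ (Nat.card k) ^ m - X :=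
        (hirr.natDegree_dvd_iff_dvd_X_pow_card_pow_sub_X).1 (by rw [hdeg])
      have hsplit : (Q.map (algebraMap k (FiniteField.Extension k p m))).Splits := by
        refine Splits.of_dvd ?_ ?_ (map_dvd (algebraMap k (FiniteField.Extension k p m)) hdvd)
        · apply IsSplittingField.splits
        · exact map_ne_zero (FiniteField.X_pow_card_pow_sub_X_ne_zero _ hm.ne' Finite.one_lt_card)
      have hc := Polynomial.card_rootSet_eq_natDegree
        (K := FiniteField.Extension k p m) (p := Q)
        (PerfectField.separable_of_irreducible hirr) hsplit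
      rw [hdeg] at hc
      refine Eq.trans ?_ hc
      rw [← Set.toFinset_card]
      congr 1
      ext t
      rw [Finset.mem_filter, Finset.mem_filter, Set.mem_toFinset, Polynomial.mem_rootSet]
      constructor
      · rintro ⟨-, h⟩
        exact ⟨hirr.ne_zero, h ▸ minpoly.aeval k t⟩
      · rintro ⟨-, h⟩
        have := minpoly.eq_of_irreducible_of_monic hirr h hmon
        exact ⟨⟨Finset.mem_univ _, by rw [← this, hdeg]⟩, this.symm⟩
    have h2 : ∀ t ∈ (Finset.univ.filter fun t : FiniteField.Extension k p m =>
        (minpoly k t).natDegree = m), minpoly k t ∈ irrD k m := by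
      intro t ht
      rw [Finset.mem_filter] at ht
      exact mem_irrD.2 ⟨minpoly.monic (hint t), minpoly.irreducible (hint t), ht.2⟩
    rw [← Finset.sum_fiberwise_of_maps_to h2, Finset.mul_sum]
    refine Finset.sum_congr rfl fun Q hQ => ?_
    rw [Finset.sum_congr rfl (g := fun _ => φ Q)
      (fun t ht => by rw [(Finset.mem_filter.1 ht).2]), Finset.sum_const, h1 Q hQ, nsmul_eq_mul]
  · have h3 : (Finset.univ.filter fun t : FiniteField.Extension k p m =>
        (minpoly k t).natDegree ≠ m) ⊆ (Finset.Icc 1 (m / 2)).biUnion fun d =>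
          (Finset.univ.filter fun t : FiniteField.Extension k p m => t ^ (Nat.card k) ^ d = t) := by
      intro t ht
      rw [Finset.mem_filter] at ht
      have hirr := minpoly.irreducible (hint t)
      have hdm : (minpoly k t).natDegree ∣ m := by
        have := minpoly.degree_dvd (hint t)
        rwa [FiniteField.finrank_extension k p m] at this
      have hpos : 0 < (minpoly k t).natDegree := hirr.natDegree_pos
      obtain ⟨c, hc⟩ := hdm
      rw [Finset.mem_biUnion]
      refine ⟨(minpoly k t).natDegree, ?_, ?_⟩
      · rw [Finset.mem_Icc]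
        refine ⟨hpos, ?_⟩
        have hc2 : 2 ≤ c := by
          rcases c with _ | _ | c
          · omega
          · exfalso; apply ht.2; omega
          · omega
        rw [Nat.le_div_iff_mul_le (by norm_num)]
        conv_rhs => rw [hc]
        exact Nat.mul_le_mul_left _ hc2
      · rw [Finset.mem_filter]
        refine ⟨Finset.mem_univ _, ?_⟩
        have := (hirr.natDegree_dvd_iff_dvd_X_pow_card_pow_sub_X).1 (dvd_refl _)
        obtain ⟨g, hg⟩ := this
        have h4 := congrArg (aeval t) hg
        rw [map_mul, minpoly.aeval, zero_mul] at h4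
        simpa [sub_eq_zero] using h4
    have h5 : ∀ d ∈ Finset.Icc 1 (m / 2), (Finset.univ.filter
        fun t : FiniteField.Extension k p m => t ^ (Nat.card k) ^ d = t).card ≤ Nat.card k ^ d := by
      intro d hd
      rw [Finset.mem_Icc] at hd
      have hne : (X ^ Nat.card k ^ d - X : (FiniteField.Extension k p m)[X]) ≠ 0 :=
        FiniteField.X_pow_card_pow_sub_X_ne_zero _ (by omega) Finite.one_lt_card
      have hdeg : (X ^ Nat.card k ^ d - X : (FiniteField.Extension k p m)[X]).natDegree
          = Nat.card k ^ d :=
        FiniteField.X_pow_card_pow_sub_X_natDegree_eq _ (by omega) Finite.one_lt_card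
      calc _ ≤ (X ^ Nat.card k ^ d - X : (FiniteField.Extension k p m)[X]).roots.toFinset.card := by
            refine Finset.card_le_card ?_
            intro t ht
            rw [Finset.mem_filter] at ht
            rw [Multiset.mem_toFinset, mem_roots hne]
            simp [IsRoot, ht.2]
        _ ≤ (X ^ Nat.card k ^ d - X : (FiniteField.Extension k p m)[X]).natDegree :=
            (Multiset.toFinset_card_le _).trans (card_roots' _)
        _ = _ := hdeg
    have h6 : (Finset.univ.filter fun t : FiniteField.Extension k p m =>
        (minpoly k t).natDegree ≠ m).card ≤ 2 * Nat.card k ^ (m / 2) :=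
      ((Finset.card_le_card h3).trans Finset.card_biUnion_le).trans
        ((Finset.sum_le_sum h5).trans (sum_pow_le _ hq _))
    have h7 : ((Nat.card k : ℝ)) ^ (m / 2) ≤ √(cd (FiniteField.Extension k p m)) := by
      rw [hcd]
      refine Real.le_sqrt_of_sq_le ?_
      rw [← pow_mul]
      refine pow_le_pow_right₀ ?_ (by omega)
      exact_mod_cast (by omega : 1 ≤ Nat.card k)
    calc ((Finset.univ.filter fun t : FiniteField.Extension k p m =>
        (minpoly k t).natDegree ≠ m).card : ℝ) ≤ ((2 * Nat.card k ^ (m / 2) : ℕ) : ℝ) := by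
          exact_mod_cast h6
      _ = 2 * (Nat.card k : ℝ) ^ (m / 2) := by push_cast; ring
      _ ≤ _ := by linarith

end Run7.h437.TS
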