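import Pool.Agent.Run7.h437.TS.W
import Pool.Agent.Run7.h437.TS.TRS

set_option autoImplicit false
set_option linter.all false

open Polynomial
open Pool.Agent.N874.PP Pool.Agent.TH115.GD
open scoped Classical

namespace Run7.h437.TS

open Run7.h875.TS

/-- Expansion of the product of the `2 - n j`. -/
theorem expand_n {F ι : Type} [Fintype F] (g : F → ℝ) (n : ι → F → ℝ) (M E : ℝ) (I : Finset ι)
    (h : ∀ J ⊆ I, |(∑ t : F, g t * ∏ j ∈ J, n j t) - M| ≤ E) :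
    |(∑ t : F, g t * ∏ j ∈ I, (2 - n j t)) - M| ≤ 3 ^ I.card * E := by
  have h1 : ∀ t : F, ∏ j ∈ I, (2 - n j t) =
      ∑ J ∈ I.powerset, (∏ j ∈ J, (-1 : ℝ)) * (∏ j ∈ I \ J, (2 : ℝ)) * ∏ j ∈ J, n j t := by
    intro t
    have : ∀ j ∈ I, (2 - n j t) = (-1) * n j t + 2 := fun j _ => by ring
    rw [Finset.prod_congr rfl this, Finset.prod_add]
    refine Finset.sum_congr rfl fun J _ => ?_
    rw [Finset.prod_mul_distrib]
    ring
  have h2 : (1 : ℝ) = ∑ J ∈ I.powerset, (∏ j ∈ J, (-1 : ℝ)) * (∏ j ∈ I \ J, (2 : ℝ)) := by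
    rw [← Finset.prod_add]
    norm_num
  have h3 : (3 : ℝ) ^ I.card = ∑ J ∈ I.powerset, (∏ j ∈ J, (1 : ℝ)) * (∏ j ∈ I \ J, (2 : ℝ)) := by
    rw [← Finset.prod_add, Finset.prod_const]
    norm_num
  have h4 : (∑ t : F, g t * ∏ j ∈ I, (2 - n j t)) - M =
      ∑ J ∈ I.powerset, ((∏ j ∈ J, (-1 : ℝ)) * (∏ j ∈ I \ J, (2 : ℝ))) *
        ((∑ t : F, g t * ∏ j ∈ J, n j t) - M) := by
    have h5 : ∑ J ∈ I.powerset, ((∏ j ∈ J, (-1 : ℝ)) * (∏ j ∈ I \ J, (2 : ℝ))) *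
        ((∑ t : F, g t * ∏ j ∈ J, n j t) - M) =
        ∑ J ∈ I.powerset, ((∏ j ∈ J, (-1 : ℝ)) * (∏ j ∈ I \ J, (2 : ℝ))) *
        (∑ t : F, g t * ∏ j ∈ J, n j t) - M := by
      simp_rw [mul_sub]
      rw [Finset.sum_sub_distrib]
      congr 1
      rw [← Finset.sum_mul, ← h2, one_mul]
    rw [h5]
    congr 1
    simp_rw [Finset.mul_sum]
    rw [Finset.sum_comm]
    refine Finset.sum_congr rfl fun t _ => ?_
    rw [h1, Finset.mul_sum]
    exact Finset.sum_congr rfl fun J _ => by ring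
  rw [h4, h3, Finset.sum_mul]
  refine (Finset.abs_sum_le_sum_abs _ _).trans (Finset.sum_le_sum fun J hJ => ?_)
  rw [abs_mul, abs_mul, Finset.abs_prod, Finset.abs_prod]
  have h6 := h J (Finset.mem_powerset.1 hJ)
  have h7 : (∏ j ∈ J, |(-1 : ℝ)|) = ∏ j ∈ J, (1 : ℝ) := by simp
  have h8 : (∏ j ∈ I \ J, |(2 : ℝ)|) = ∏ j ∈ I \ J, (2 : ℝ) := by simp
  rw [h7, h8]
  exact mul_le_mul_of_nonneg_left h6 (by positivity)

/-- Expansion of the product of the `σ j + (2 - n j)`. -/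
theorem expand_s {F ι : Type} [Fintype F] (g : F → ℝ) (s n : ι → F → ℝ) (M E : ℝ) (I : Finset ι)
    (h0 : ∀ J ⊆ I, |(∑ t : F, g t * ∏ j ∈ J, n j t) - M| ≤ E)
    (h : ∀ B ⊆ I, B ≠ ∅ → ∀ J ⊆ I, (∀ j ∈ J, j ∉ B) →
      |∑ t : F, g t * (∏ j ∈ B, s j t) * ∏ j ∈ J, n j t| ≤ E) :
    |(∑ t : F, g t * ∏ j ∈ I, (s j t + (2 - n j t))) - M| ≤ 4 ^ I.card * E := by
  have h1 : (∑ t : F, g t * ∏ j ∈ I, (s j t + (2 - n j t))) - M =
      ∑ B ∈ I.powerset, ((∑ t : F, g t * (∏ j ∈ B, s j t) * ∏ j ∈ I \ B, (2 - n j t)) -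
        (if B = ∅ then M else 0)) := by
    rw [Finset.sum_sub_distrib]
    congr 1
    · rw [Finset.sum_comm]
      refine Finset.sum_congr rfl fun t _ => ?_
      rw [Finset.prod_add, Finset.mul_sum]
      exact Finset.sum_congr rfl fun J _ => by ring
    · rw [Finset.sum_ite_eq']
      simp
  have h3 : (4 : ℝ) ^ I.card = ∑ B ∈ I.powerset, (∏ j ∈ B, (1 : ℝ)) * (∏ j ∈ I \ B, (3 : ℝ)) := by
    rw [← Finset.prod_add, Finset.prod_const]
    norm_num
  rw [h1, h3, Finset.sum_mul]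
  refine (Finset.abs_sum_le_sum_abs _ _).trans (Finset.sum_le_sum fun B hB => ?_)
  have h4 := expand_n (fun t => g t * ∏ j ∈ B, s j t) n (if B = ∅ then M else 0) E (I \ B)
    (by
      intro J hJ
      by_cases hB0 : B = ∅
      · subst hB0
        rw [if_pos rfl]
        simp only [Finset.prod_empty, mul_one]
        exact h0 J (hJ.trans Finset.sdiff_subset)
      · rw [if_neg hB0, sub_zero]
        exact h B (Finset.mem_powerset.1 hB) hB0 J (hJ.trans Finset.sdiff_subset)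
          fun j hj => (Finset.mem_sdiff.1 (hJ hj)).2)
  refine h4.trans (le_of_eq ?_)
  rw [Finset.prod_const_one, one_mul, Finset.prod_const]

/-- Expansion of the product of the `1 + ε P`. -/
theorem expand_e {F α : Type} [Fintype F] (g : F → ℝ) (c : α → ℝ) (x : α → F → ℝ) (M E : ℝ)
    (S : Finset α) (hc : ∀ P, |c P| ≤ 1) (h0 : |(∑ t : F, g t) - M| ≤ E)
    (h : ∀ A ⊆ S, A ≠ ∅ → |∑ t : F, g t * ∏ P ∈ A, x P t| ≤ E) :
    |(∑ t : F, g t * ∏ P ∈ S, (c P * x P t + 1)) - M| ≤ 2 ^ S.card * E := by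
  have h1 : (∑ t : F, g t * ∏ P ∈ S, (c P * x P t + 1)) - M =
      ∑ A ∈ S.powerset, (∏ P ∈ A, c P) * ((∑ t : F, g t * ∏ P ∈ A, x P t) -
        (if A = ∅ then M else 0)) := by
    simp_rw [mul_sub]
    rw [Finset.sum_sub_distrib]
    congr 1
    · simp_rw [Finset.mul_sum]
      rw [Finset.sum_comm]
      refine Finset.sum_congr rfl fun t _ => ?_
      rw [Finset.prod_add, Finset.mul_sum]
      refine Finset.sum_congr rfl fun J _ => ?_
      rw [Finset.prod_mul_distrib, Finset.prod_const_one]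
      ring
    · simp_rw [mul_ite, mul_zero]
      rw [Finset.sum_ite_eq']
      simp
  rw [h1]
  refine (Finset.abs_sum_le_sum_abs _ _).trans ?_
  have h2 : (2 : ℝ) ^ S.card * E = ∑ A ∈ S.powerset, E := by
    rw [Finset.sum_const, Finset.card_powerset, nsmul_eq_mul]
    push_cast
    rfl
  rw [h2]
  refine Finset.sum_le_sum fun A hA => ?_
  rw [abs_mul, Finset.abs_prod]
  have h3 : ∏ P ∈ A, |c P| ≤ 1 := Finset.prod_le_one (fun _ _ => abs_nonneg _) fun P _ => hc P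
  have h4 : |(∑ t : F, g t * ∏ P ∈ A, x P t) - (if A = ∅ then M else 0)| ≤ E := by
    by_cases hA0 : A = ∅
    · subst hA0
      rw [if_pos rfl]
      simpa using h0
    · rw [if_neg hA0, sub_zero]
      exact h A (Finset.mem_powerset.1 hA) hA0
  calc (∏ P ∈ A, |c P|) * |(∑ t : F, g t * ∏ P ∈ A, x P t) - (if A = ∅ then M else 0)| ≤ 1 * E :=
        mul_le_mul h3 h4 (abs_nonneg _) zero_le_one
    _ = E := one_mul _

theorem chi_prod {F α : Type} [Field F] [Fintype F] (s : Finset α) (f : α → F) :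
    chi (∏ x ∈ s, f x) = ∏ x ∈ s, chi (f x) := by
  unfold chi
  rw [map_prod]
  push_cast
  rfl

/-- A polynomial divisible exactly once by an irreducible polynomial is not a constant times a
square. -/
theorem not_const_sq {k : Type} [Field k] {A π : k[X]} (hπ : Irreducible π) (h1 : π ∣ A)
    (h2 : ¬ π ^ 2 ∣ A) (c : k) (y : k[X]) : A ≠ C c * y ^ 2 := by
  rintro rfl
  rcases eq_or_ne c 0 with rfl | hc
  · apply h2
    simp
  · have hp := hπ.prime
    have h3 : IsUnit (C c : k[X]) := isUnit_C.2 (isUnit_iff_ne_zero.2 hc)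
    have h4 : π ∣ y ^ 2 := (h3.dvd_mul_left).1 h1
    have h5 : π ∣ y := hp.dvd_of_dvd_pow h4
    exact h2 (Dvd.dvd.mul_left (pow_dvd_pow_of_dvd h5 2) _)

/-- The exact divisibility for a product. -/
theorem exact_prod {k α : Type} [Field k] {π : k[X]} (hπ : Irreducible π) (s : Finset α)
    (f : α → k[X]) (x : α) (hx : x ∈ s) (h1 : π ∣ f x) (h2 : ¬ π ^ 2 ∣ f x)
    (h3 : ∀ y ∈ s, y ≠ x → ¬ π ∣ f y) : π ∣ ∏ y ∈ s, f y ∧ ¬ π ^ 2 ∣ ∏ y ∈ s, f y := by
  rw [← Finset.mul_prod_erase s f hx]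
  have hp := hπ.prime
  have h4 : ¬ π ∣ ∏ y ∈ s.erase x, f y := by
    intro h
    obtain ⟨y, hy, hy2⟩ := (Prime.dvd_finsetProd_iff hp _).1 h
    rw [Finset.mem_erase] at hy
    exact h3 y hy.2 hy.1 hy2
  refine ⟨h1.mul_right _, fun h => ?_⟩
  exact h2 (hp.pow_dvd_of_dvd_mul_right 2 h4 h)

theorem aeval_zero_iff {k F : Type} [Field k] [Field F] [Fintype F] [Algebra k F] (t : F)
    (g : k[X]) : aeval t g = 0 ↔ minpoly k t ∣ g :=
  (minpoly.dvd_iff (x := t) (p := g)).symm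

end Run7.h437.TS
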