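import Pool.Agent.Run7.h875.TS.StmA

set_option autoImplicit false
set_option linter.all false

open Polynomial
open Pool.Agent.N874.PP Pool.Agent.TH115.GD
open scoped Classical

namespace Run7.h437.TS

open Run7.h875.TS

section basic

variable {k F : Type} [Field k] [Field F] [Fintype F] [Algebra k F]

theorem ev2_eq (t y : F) (H : k[X][X]) :
    ev2 t y H = (H.map ((aeval t : k[X] →ₐ[k] F).toRingHom)).eval y := by
  unfold ev2
  rw [eval_map]

theorem ev2_C (t y : F) (A : k[X]) : ev2 t y (C A) = aeval t A := by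
  unfold ev2
  rw [eval₂_C]
  rfl

theorem ev2_mul (t y : F) (A B : k[X][X]) : ev2 t y (A * B) = ev2 t y A * ev2 t y B := by
  unfold ev2; rw [eval₂_mul]

theorem ev2_add (t y : F) (A B : k[X][X]) : ev2 t y (A + B) = ev2 t y A + ev2 t y B := by
  unfold ev2; rw [eval₂_add]

theorem ev2_pow (t y : F) (A : k[X][X]) (n : ℕ) : ev2 t y (A ^ n) = ev2 t y A ^ n := by
  unfold ev2; rw [eval₂_pow]

theorem card_y_le {H : k[X][X]} (hm : H.Monic) (t : F) :
    (Finset.univ.filter fun y : F => ev2 t y H = 0).card ≤ H.natDegree := by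
  have hm' := hm.map ((aeval t : k[X] →ₐ[k] F).toRingHom)
  calc _ ≤ (H.map ((aeval t : k[X] →ₐ[k] F).toRingHom)).roots.toFinset.card := by
        refine Finset.card_le_card ?_
        intro y hy
        rw [Finset.mem_filter] at hy
        rw [Multiset.mem_toFinset, mem_roots hm'.ne_zero]
        rw [IsRoot, ← ev2_eq]
        exact hy.2
    _ ≤ (H.map ((aeval t : k[X] →ₐ[k] F).toRingHom)).natDegree :=
        (Multiset.toFinset_card_le _).trans (card_roots' _)
    _ = H.natDegree := hm.natDegree_map _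

theorem card_rts_le (a b : k[X]) (t : F) : (rts a b t).card ≤ 3 := by
  have hm : (X ^ 3 + C (aeval t a) * X + C (aeval t b) : F[X]).Monic := by monicity!
  have hd : (X ^ 3 + C (aeval t a) * X + C (aeval t b) : F[X]).natDegree = 3 := by
    compute_degree!
  calc _ ≤ (X ^ 3 + C (aeval t a) * X + C (aeval t b) : F[X]).roots.toFinset.card := by
        refine Finset.card_le_card ?_
        intro y hy
        unfold rts at hy
        rw [Finset.mem_filter] at hy
        rw [Multiset.mem_toFinset, mem_roots hm.ne_zero]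
        simpa [IsRoot] using hy.2
    _ ≤ (X ^ 3 + C (aeval t a) * X + C (aeval t b) : F[X]).natDegree :=
        (Multiset.toFinset_card_le _).trans (card_roots' _)
    _ = 3 := hd

theorem card_zero_le {D : k[X]} (hD : D ≠ 0) :
    (Finset.univ.filter fun t : F => aeval t D = 0).card ≤ D.natDegree := by
  have hD' : D.map (algebraMap k F) ≠ 0 := by
    rwa [Ne, Polynomial.map_eq_zero_iff (algebraMap k F).injective]
  calc _ ≤ (D.map (algebraMap k F)).roots.toFinset.card := by
        refine Finset.card_le_card ?_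
        intro y hy
        rw [Finset.mem_filter] at hy
        rw [Multiset.mem_toFinset, mem_roots hD', IsRoot, eval_map_algebraMap]
        exact hy.2
    _ ≤ (D.map (algebraMap k F)).natDegree :=
        (Multiset.toFinset_card_le _).trans (card_roots' _)
    _ = D.natDegree := natDegree_map _

theorem one_le_sqrt_cd : 1 ≤ √(cd F) := by
  rw [Real.one_le_sqrt]
  unfold cd
  exact_mod_cast Nat.card_pos

theorem abs_chi_le (x : F) : |chi x| ≤ 1 := by
  unfold chi
  by_cases hx : x = 0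
  · simp [hx]
  · rcases quadraticChar_dichotomy hx with h | h <;> simp [h]

theorem chi_mul (x y : F) : chi (x * y) = chi x * chi y := by
  unfold chi
  rw [map_mul]
  push_cast
  rfl

theorem chi_sq {x : F} (hx : x ≠ 0) : chi (x ^ 2) = 1 := by
  unfold chi
  rw [quadraticChar_sq_one' hx]
  simp

end basic

/-- Sum over tuples of zeros = sum over the zeros of the model. -/
theorem bijsum {k ι F : Type} [Field k] [Field F] [Fintype F] [Algebra k F] {a b : ι → k[X]}
    {J : Finset ι} {H : k[X][X]} {D : k[X]} {e : ι → k[X][X]} (hM : IsModel a b J H D e)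
    {t : F} (ht : aeval t D ≠ 0) (f : ι → F → ℝ) :
    ∏ j ∈ J, ∑ c ∈ rts (a j) (b j) t, f j c =
      ∑ y ∈ Finset.univ.filter (fun y : F => ev2 t y H = 0),
        ∏ j ∈ J, f j (ev2 t y (e j) / aeval t D) := by
  obtain ⟨hb1, hb2⟩ := hM.bij F t ht
  rw [Finset.prod_sum]
  symm
  refine Finset.sum_bij (fun y _ => fun j _ => ev2 t y (e j) / aeval t D) ?_ ?_ ?_ ?_
  · intro y hy
    rw [Finset.mem_filter] at hy
    rw [Finset.mem_pi]
    intro j hj
    unfold rts
    rw [Finset.mem_filter]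
    exact ⟨Finset.mem_univ _, hb1 y hy.2 j hj⟩
  · intro y hy y' hy' h
    rw [Finset.mem_filter] at hy hy'
    obtain ⟨y₀, -, hu⟩ := hb2 (fun j => ev2 t y (e j) / aeval t D) (fun j hj => hb1 y hy.2 j hj)
    have h1 := hu y ⟨hy.2, fun j hj => rfl⟩
    have h2 := hu y' ⟨hy'.2, fun j hj => (congrFun (congrFun h j) hj).symm⟩
    rw [h1, h2]
  · intro c hc
    rw [Finset.mem_pi] at hc
    obtain ⟨y₀, ⟨h1, h2⟩, -⟩ := hb2 (fun j => if h : j ∈ J then c j h else 0) (fun j hj => by
      have := hc j hj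
      unfold rts at this
      rw [Finset.mem_filter] at this
      simp only [dif_pos hj]
      exact this.2)
    refine ⟨y₀, by rw [Finset.mem_filter]; exact ⟨Finset.mem_univ _, h1⟩, ?_⟩
    funext j hj
    rw [h2 j hj, dif_pos hj]
  · intro y hy
    rw [← Finset.prod_attach J]

/-- Comparison of the sum over tuples with the sum over the points of the model. -/
theorem compare {k ι F : Type} [Field k] [Field F] [Fintype F] [Algebra k F] {a b : ι → k[X]}
    {J : Finset ι} {H : k[X][X]} {D : k[X]} {e : ι → k[X][X]} (hM : IsModel a b J H D e)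
    (w : F → ℝ) (f : F → ι → F → ℝ) (h : F → F → ℝ) (hw : ∀ t, |w t| ≤ 1)
    (hf : ∀ t j c, |f t j c| ≤ 1) (hh : ∀ t y, |h t y| ≤ 1)
    (heq : ∀ t y, aeval t D ≠ 0 → ev2 t y H = 0 →
      h t y = w t * ∏ j ∈ J, f t j (ev2 t y (e j) / aeval t D)) :
    |(∑ t : F, w t * ∏ j ∈ J, ∑ c ∈ rts (a j) (b j) t, f t j c) -
      ∑ z ∈ Finset.univ.filter (fun z : F × F => ev2 z.1 z.2 H = 0), h z.1 z.2| ≤
      2 * 3 ^ J.card * D.natDegree := by
  have h1 : ∑ z ∈ Finset.univ.filter (fun z : F × F => ev2 z.1 z.2 H = 0), h z.1 z.2 =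
      ∑ t : F, ∑ y ∈ Finset.univ.filter (fun y : F => ev2 t y H = 0), h t y := by
    rw [Finset.sum_filter, Fintype.sum_prod_type]
    refine Finset.sum_congr rfl fun t _ => ?_
    rw [Finset.sum_filter]
  rw [h1, ← Finset.sum_sub_distrib]
  have h2 : ∀ t : F, |w t * ∏ j ∈ J, ∑ c ∈ rts (a j) (b j) t, f t j c -
      ∑ y ∈ Finset.univ.filter (fun y : F => ev2 t y H = 0), h t y| ≤
      if aeval t D = 0 then 2 * 3 ^ J.card else 0 := by
    intro t
    split_ifs with ht
    · have h3 : |w t * ∏ j ∈ J, ∑ c ∈ rts (a j) (b j) t, f t j c| ≤ 3 ^ J.card := by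
        rw [abs_mul, Finset.abs_prod]
        calc |w t| * ∏ j ∈ J, |∑ c ∈ rts (a j) (b j) t, f t j c| ≤
            1 * ∏ j ∈ J, (3 : ℝ) := by
              refine mul_le_mul (hw t) ?_ (Finset.prod_nonneg fun _ _ => abs_nonneg _) zero_le_one
              refine Finset.prod_le_prod (fun _ _ => abs_nonneg _) fun j _ => ?_
              calc |∑ c ∈ rts (a j) (b j) t, f t j c| ≤ ∑ c ∈ rts (a j) (b j) t, |f t j c| :=
                    Finset.abs_sum_le_sum_abs _ _
                _ ≤ ∑ c ∈ rts (a j) (b j) t, (1 : ℝ) := Finset.sum_le_sum fun c _ => hf t j c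
                _ = ((rts (a j) (b j) t).card : ℝ) := by simp
                _ ≤ 3 := by exact_mod_cast card_rts_le (a j) (b j) t
          _ = 3 ^ J.card := by simp
      have h4 : |∑ y ∈ Finset.univ.filter (fun y : F => ev2 t y H = 0), h t y| ≤ 3 ^ J.card := by
        calc |∑ y ∈ Finset.univ.filter (fun y : F => ev2 t y H = 0), h t y| ≤
            ∑ y ∈ Finset.univ.filter (fun y : F => ev2 t y H = 0), |h t y| :=
              Finset.abs_sum_le_sum_abs _ _
          _ ≤ ∑ y ∈ Finset.univ.filter (fun y : F => ev2 t y H = 0), (1 : ℝ) :=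
              Finset.sum_le_sum fun y _ => hh t y
          _ = ((Finset.univ.filter (fun y : F => ev2 t y H = 0)).card : ℝ) := by simp
          _ ≤ (H.natDegree : ℝ) := by exact_mod_cast card_y_le hM.pc.monic t
          _ = 3 ^ J.card := by rw [hM.deg]; push_cast; rfl
      have h5 := abs_sub (w t * ∏ j ∈ J, ∑ c ∈ rts (a j) (b j) t, f t j c)
        (∑ y ∈ Finset.univ.filter (fun y : F => ev2 t y H = 0), h t y)
      linarith
    · have h5 : w t * ∏ j ∈ J, ∑ c ∈ rts (a j) (b j) t, f t j c =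
          ∑ y ∈ Finset.univ.filter (fun y : F => ev2 t y H = 0), h t y := by
        rw [bijsum hM ht, Finset.mul_sum]
        refine Finset.sum_congr rfl (fun y hy => ?_)
        rw [Finset.mem_filter] at hy
        exact (heq t y ht hy.2).symm
      rw [h5, sub_self, abs_zero]
  calc _ ≤ ∑ t : F, |w t * ∏ j ∈ J, ∑ c ∈ rts (a j) (b j) t, f t j c -
        ∑ y ∈ Finset.univ.filter (fun y : F => ev2 t y H = 0), h t y| :=
        Finset.abs_sum_le_sum_abs _ _
    _ ≤ ∑ t : F, (if aeval t D = 0 then (2 * 3 ^ J.card : ℝ) else 0) :=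
        Finset.sum_le_sum fun t _ => h2 t
    _ = (Finset.univ.filter fun t : F => aeval t D = 0).card * (2 * 3 ^ J.card : ℝ) := by
        rw [← Finset.sum_filter, Finset.sum_const, nsmul_eq_mul]
    _ ≤ D.natDegree * (2 * 3 ^ J.card : ℝ) := by
        gcongr
        exact_mod_cast card_zero_le hM.pc.ne
    _ = _ := by ring

/-- The polynomial whose character sum is needed. -/
noncomputable def gp {k : Type} [Field k] (D : k[X]) (z : Fin 3 → k[X]) (e : k[X][X]) : k[X][X] :=
  C (D ^ 2 * z 0) + C (D * z 1) * e + C (z 2) * e ^ 2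

theorem gp_ev {k F : Type} [Field k] [Field F] [Fintype F] [Algebra k F] (D : k[X])
    (z : Fin 3 → k[X]) (e : k[X][X]) (t y : F) (ht : aeval t D ≠ 0) :
    ev2 t y (gp D z e) = aeval t D ^ 2 * zev t (ev2 t y e / aeval t D) z := by
  unfold gp zev
  rw [ev2_add, ev2_add, ev2_mul, ev2_mul, ev2_pow, ev2_C, ev2_C, ev2_C, map_mul, map_mul, map_pow]
  field_simp

theorem coeff_mul_deg {R : Type} [CommRing R] [IsDomain R] (f g : R[X][X]) (A B : ℕ)
    (hf : ∀ i, (f.coeff i).natDegree ≤ A) (hg : ∀ i, (g.coeff i).natDegree ≤ B) (i : ℕ) :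
    ((f * g).coeff i).natDegree ≤ A + B := by
  rw [coeff_mul]
  refine natDegree_sum_le_of_forall_le _ _ fun x _ => ?_
  exact natDegree_mul_le.trans (add_le_add (hf _) (hg _))

theorem gp_coeff {k : Type} [Field k] (D : k[X]) (z : Fin 3 → k[X]) (e : k[X][X]) (N E : ℕ)
    (hz : ∀ l, (z l).natDegree ≤ N) (he : ∀ i, (e.coeff i).natDegree ≤ E) (i : ℕ) :
    ((gp D z e).coeff i).natDegree ≤ N + 2 * D.natDegree + 2 * E := by
  have hC : ∀ (A : k[X]) (i : ℕ), ((C A : k[X][X]).coeff i).natDegree ≤ A.natDegree := by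
    intro A i
    rw [coeff_C]
    split_ifs <;> simp
  have h0 : ((C (D ^ 2 * z 0) : k[X][X]).coeff i).natDegree ≤ N + 2 * D.natDegree + 2 * E := by
    refine (hC _ _).trans (natDegree_mul_le.trans ?_)
    rw [natDegree_pow]
    have := hz 0
    omega
  have h1 : ((C (D * z 1) * e : k[X][X]).coeff i).natDegree ≤ N + 2 * D.natDegree + 2 * E := by
    refine (coeff_mul_deg _ _ _ _ (hC _) he i).trans ?_
    have := (natDegree_mul_le : (D * z 1).natDegree ≤ _)
    have := hz 1
    omega
  have h2 : ((C (z 2) * e ^ 2 : k[X][X]).coeff i).natDegree ≤ N + 2 * D.natDegree + 2 * E := by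
    have h3 : ∀ i, ((e ^ 2).coeff i).natDegree ≤ E + E := by
      rw [sq]
      exact coeff_mul_deg _ _ _ _ he he
    refine (coeff_mul_deg _ _ _ _ (hC _) h3 i).trans ?_
    have := hz 2
    omega
  unfold gp
  rw [coeff_add, coeff_add]
  exact (natDegree_add_le _ _).trans (max_le ((natDegree_add_le _ _).trans (max_le h0 h1)) h2)

theorem exists_coeff_bound {k : Type} [Field k] (e : k[X][X]) :
    ∃ E : ℕ, ∀ i, (e.coeff i).natDegree ≤ E := by
  refine ⟨∑ i ∈ e.support, (e.coeff i).natDegree, fun i => ?_⟩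
  by_cases hi : i ∈ e.support
  · exact Finset.single_le_sum (f := fun i => (e.coeff i).natDegree) (fun _ _ => Nat.zero_le _) hi
  · rw [notMem_support_iff.1 hi]
    simp

/-- The estimates for one set `J`. -/
theorem one_J (hMod : S_MODEL) (hDou : S_DOUBLE) (hNsq : S_NSQ) {k ι : Type} [Field k] [Finite k]
    [Finite ι] (a b p : ι → k[X]) (h6 : (6 : k) ≠ 0) (hD : Data a b p) (J : Finset ι) :
    ∃ C₀ : ℕ,
    (∀ (F : Type) [Field F] [Fintype F] [Algebra k F],
      |(∑ t : F, ∏ j ∈ J, ((rts (a j) (b j) t).card : ℝ)) - cd F| ≤ C₀ * √(cd F)) ∧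
    (∀ A : k[X], (∀ (c : k) (y : k[X]), A ≠ C c * y ^ 2) →
      ∀ (F : Type) [Field F] [Fintype F] [Algebra k F],
      |∑ t : F, chi (aeval t A) * ∏ j ∈ J, ((rts (a j) (b j) t).card : ℝ)| ≤
        C₀ * (1 + A.natDegree) * √(cd F)) ∧
    ∀ i, i ∈ J → ∀ (K L : Type) [Field K] [Algebra k[X] K] [IsFractionRing k[X] K]
      [Field L] [Algebra K L] [Algebra k[X] L] [IsScalarTower k[X] K L] (θ : L),
      IsCub K (a i) (b i) θ → ∀ (z : Fin 3 → k[X]) (α : L) (N : ℕ), Crd θ z α →
      (∀ l, (z l).natDegree ≤ N) →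
      (∀ (c : k) (y : L), α ≠ algebraMap k[X] L (C c) * y ^ 2) →
      ∀ (F : Type) [Field F] [Fintype F] [Algebra k F],
      |∑ t : F, (∑ c ∈ rts (a i) (b i) t, chi (zev t c z)) *
          ∏ j ∈ J.erase i, ((rts (a j) (b j) t).card : ℝ)| ≤
        C₀ * (1 + N) * √(cd F) := by
  have h2 : (2 : k) ≠ 0 := by
    intro h
    apply h6
    have : (6 : k) = 2 * 3 := by norm_num
    rw [this, h, zero_mul]
  obtain ⟨H, D, e, hM⟩ := hMod k ι a b p h6 hD J
  obtain ⟨C₁, hC1, hC2⟩ := hDou k H D h2 hM.pc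
  obtain ⟨hN1, hN2⟩ := hNsq k ι a b p h6 hD J H D e hM
  choose E hE using fun i => exists_coeff_bound (e i)
  set C₂ : ℕ := 2 * 3 ^ J.card * D.natDegree with hC₂
  set C₃ : ℕ := 2 * D.natDegree + 2 * ∑ i ∈ J, E i with hC₃
  have habs : ∀ (x y c d s : ℝ), |x - y| ≤ c → |y| ≤ d * s → 0 ≤ c → 1 ≤ s → |x| ≤ (c + d) * s := by
    intro x y c d s h1 h2 h3 h4
    have h5 : |x| ≤ |x - y| + |y| := by
      calc |x| = |(x - y) + y| := by ring_nf
        _ ≤ _ := abs_add_le _ _
    nlinarith
  refine ⟨C₂ + C₁ * (1 + C₃), ?_, ?_, ?_⟩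
  · intro F _ _ _
    have h1 := compare hM (F := F) (fun _ => 1) (fun _ _ _ => 1) (fun _ _ => 1) (by simp)
      (by simp) (by simp) (by simp)
    have h3 := hC1 F
    have h4 : (∑ t : F, (1 : ℝ) * ∏ j ∈ J, ∑ c ∈ rts (a j) (b j) t, (1 : ℝ)) =
        ∑ t : F, ∏ j ∈ J, ((rts (a j) (b j) t).card : ℝ) := by
      refine Finset.sum_congr rfl fun t _ => ?_
      rw [one_mul]
      refine Finset.prod_congr rfl fun j _ => ?_
      simp
    have h5 : ∑ z ∈ Finset.univ.filter (fun z : F × F => ev2 z.1 z.2 H = 0), (1 : ℝ) =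
        ((Finset.univ.filter (fun z : F × F => ev2 z.1 z.2 H = 0)).card : ℝ) := by simp
    rw [h4, h5] at h1
    have h6 : |((∑ t : F, ∏ j ∈ J, ((rts (a j) (b j) t).card : ℝ)) - cd F) -
        (((Finset.univ.filter (fun z : F × F => ev2 z.1 z.2 H = 0)).card : ℝ) - cd F)| ≤ C₂ := by
      rw [hC₂]
      push_cast
      convert h1 using 2
      ring
    refine (habs _ _ _ _ _ h6 h3 (by positivity) one_le_sqrt_cd).trans ?_
    have : (0 : ℝ) ≤ √(cd F) := Real.sqrt_nonneg _
    push_cast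
    have h7 : (0 : ℝ) ≤ C₁ * C₃ := by positivity
    nlinarith
  · intro A hA F _ _ _
    have h1 := compare hM (F := F) (fun t => chi (aeval t A)) (fun _ _ _ => 1)
      (fun t y => chi (ev2 t y (C A))) (fun t => abs_chi_le _)
      (by simp) (fun t y => abs_chi_le _) (fun t y _ _ => by rw [ev2_C]; simp)
    have h3 := hC2 (C A) A.natDegree (by simp) (fun i => by
      rw [coeff_C]; split_ifs <;> simp) (fun k' _ _ _ _ => hN1 A hA k') F
    have h4 : (∑ t : F, chi (aeval t A) * ∏ j ∈ J, ∑ c ∈ rts (a j) (b j) t, (1 : ℝ)) =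
        ∑ t : F, chi (aeval t A) * ∏ j ∈ J, ((rts (a j) (b j) t).card : ℝ) := by
      refine Finset.sum_congr rfl fun t _ => ?_
      congr 1
      refine Finset.prod_congr rfl fun j _ => ?_
      simp
    rw [h4] at h1
    have h6 : |(∑ t : F, chi (aeval t A) * ∏ j ∈ J, ((rts (a j) (b j) t).card : ℝ)) -
        ∑ z ∈ Finset.univ.filter (fun z : F × F => ev2 z.1 z.2 H = 0),
          chi (ev2 z.1 z.2 (C A))| ≤ C₂ := by
      rw [hC₂]
      push_cast
      exact h1
    refine (habs _ _ _ _ _ h6 h3 (by positivity) one_le_sqrt_cd).trans ?_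
    have h8 : (0 : ℝ) ≤ √(cd F) := Real.sqrt_nonneg _
    refine mul_le_mul_of_nonneg_right ?_ h8
    push_cast
    have h7 : (0 : ℝ) ≤ C₁ * C₃ := by positivity
    have h9 : (0 : ℝ) ≤ C₂ := by positivity
    have h10 : (0 : ℝ) ≤ (A.natDegree : ℝ) := by positivity
    have h11 := mul_nonneg h9 h10
    have h12 := mul_nonneg h7 h10
    nlinarith
  · intro i hi K L _ _ _ _ _ _ _ θ hcub z α N hcrd hz hα F _ _ _
    have h1 := compare hM (F := F) (fun t => 1)
      (fun t j c => if j = i then chi (zev t c z) else 1)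
      (fun t y => chi (ev2 t y (gp D z (e i)))) (by simp)
      (fun t j c => by
        split_ifs
        · exact abs_chi_le _
        · simp) (fun t y => abs_chi_le _) (fun t y ht hy => by
        rw [gp_ev _ _ _ _ _ ht, chi_mul, chi_sq ht, one_mul, one_mul,
          Finset.prod_ite_eq' J i, if_pos hi])
    have hgd : (gp D z (e i)).natDegree ≤ 2 * H.natDegree := by
      have he := hM.edeg i hi
      unfold gp
      refine (natDegree_add_le _ _).trans (max_le ((natDegree_add_le _ _).trans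
        (max_le ?_ ?_)) ?_)
      · rw [natDegree_C]
        exact Nat.zero_le _
      · refine natDegree_mul_le.trans ?_
        rw [natDegree_C]
        omega
      · refine natDegree_mul_le.trans ?_
        rw [natDegree_C]
        have := natDegree_pow_le (p := e i) (n := 2)
        omega
    have hgc : ∀ l, ((gp D z (e i)).coeff l).natDegree ≤ N + C₃ := by
      intro l
      refine (gp_coeff D z (e i) N (E i) hz (hE i) l).trans ?_
      have : E i ≤ ∑ i ∈ J, E i := Finset.single_le_sum (f := E) (fun _ _ => Nat.zero_le _) hi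
      omega
    have h3 := hC2 (gp D z (e i)) (N + C₃) hgd hgc
      (fun k' _ _ _ _ => hN2 i hi K L θ hcub z α hcrd hα k') F
    have h4 : (∑ t : F, (1 : ℝ) * ∏ j ∈ J, ∑ c ∈ rts (a j) (b j) t,
          (if j = i then chi (zev t c z) else 1)) =
        ∑ t : F, (∑ c ∈ rts (a i) (b i) t, chi (zev t c z)) *
          ∏ j ∈ J.erase i, ((rts (a j) (b j) t).card : ℝ) := by
      refine Finset.sum_congr rfl fun t _ => ?_
      rw [one_mul, ← Finset.mul_prod_erase J _ hi]
      congr 1
      · exact Finset.sum_congr rfl fun c _ => if_pos rfl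
      · refine Finset.prod_congr rfl fun j hj => ?_
        rw [Finset.sum_congr rfl fun c _ => if_neg (Finset.ne_of_mem_erase hj)]
        simp
    rw [h4] at h1
    have h6 : |(∑ t : F, (∑ c ∈ rts (a i) (b i) t, chi (zev t c z)) *
          ∏ j ∈ J.erase i, ((rts (a j) (b j) t).card : ℝ)) -
        ∑ z' ∈ Finset.univ.filter (fun z : F × F => ev2 z.1 z.2 H = 0),
          chi (ev2 z'.1 z'.2 (gp D z (e i)))| ≤ C₂ := by
      rw [hC₂]
      push_cast
      exact h1
    refine (habs _ _ _ _ _ h6 h3 (by positivity) one_le_sqrt_cd).trans ?_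
    have h8 : (0 : ℝ) ≤ √(cd F) := Real.sqrt_nonneg _
    refine mul_le_mul_of_nonneg_right ?_ h8
    push_cast
    have h7 : (0 : ℝ) ≤ C₁ * C₃ := by positivity
    have h9 : (0 : ℝ) ≤ C₂ := by positivity
    have h10 : (0 : ℝ) ≤ (N : ℝ) := by positivity
    have h11 := mul_nonneg h9 h10
    have h12 := mul_nonneg h7 h10
    nlinarith

/-- **W**. -/
theorem w (hMod : S_MODEL) (hDou : S_DOUBLE) (hNsq : S_NSQ) : S_W := by
  intro k ι _ _ _ a b p h6 hD
  haveI := Fintype.ofFinite ι
  choose c hc1 hc2 hc3 using fun J => one_J hMod hDou hNsq a b p h6 hD J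
  have hle : ∀ J : Finset ι, (c J : ℝ) ≤ ((∑ J : Finset ι, c J : ℕ) : ℝ) := by
    intro J
    exact_mod_cast Finset.single_le_sum (f := c) (fun _ _ => Nat.zero_le _) (Finset.mem_univ J)
  refine ⟨∑ J : Finset ι, c J, fun J => ⟨?_, ?_, ?_⟩⟩
  · intro F _ _ _
    refine (hc1 J F).trans ?_
    have := hle J
    gcongr
  · intro A hA F _ _ _
    refine (hc2 J A hA F).trans ?_
    have := hle J
    gcongr
  · intro i hi K L _ _ _ _ _ _ _ θ hcub z α N hcrd hz hα F _ _ _
    have h1 := hc3 (insert i J) i (Finset.mem_insert_self _ _) K L θ hcub z α N hcrd hz hα F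
    rw [Finset.erase_insert hi] at h1
    have h2 : (∑ t : F, ∑ c ∈ rts (a i) (b i) t, chi (zev t c z) *
        ∏ j ∈ J, ((rts (a j) (b j) t).card : ℝ)) =
        ∑ t : F, (∑ c ∈ rts (a i) (b i) t, chi (zev t c z)) *
          ∏ j ∈ J, ((rts (a j) (b j) t).card : ℝ) :=
      Finset.sum_congr rfl fun t _ => (Finset.sum_mul _ _ _).symm
    rw [h2]
    refine h1.trans ?_
    have := hle (insert i J)
    gcongr

end Run7.h437.TS
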