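import Pool.Agent.Run7.h437.TS.LAST
import Pool.Agent.N862.PP.Nrm

set_option autoImplicit false
set_option linter.all false

open Polynomial IsDedekindDomain
open Pool.Agent.N874.PP Pool.Agent.TH115.GD
open scoped Classical

namespace Run7.h437.TS

open Run7.h875.TS

/-- The cofactors. -/
noncomputable def cf {R : Type} [CommRing R] (a b x y z : R) : R × R × R :=
  ((x - a * z) * (x - a * z) + y * (b * z + a * y), - (y * (x - a * z) + z * (b * z + a * y)),
    y * y - z * (x - a * z))

theorem cf_mul {R : Type} [CommRing R] (a b x y z T : R) (hT : T ^ 3 + a * T + b = 0) :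
    (x + y * T + z * T ^ 2) * ((cf a b x y z).1 + (cf a b x y z).2.1 * T +
      (cf a b x y z).2.2 * T ^ 2) =
    x * ((x - a * z) * (x - a * z) - (-b * z - a * y) * y)
    - (-b * z) * (y * (x - a * z) - (-b * z - a * y) * z)
    + (-b * y) * (y * y - (x - a * z) * z) := by
  unfold cf
  dsimp only
  linear_combination (z * (y * y - z * (x - a * z)) * T + y * (y * y - z * (x - a * z)) +
    z * (- (y * (x - a * z) + z * (b * z + a * y)))) * hT

section norm

variable {k F : Type} [Field k] [Field F] [Fintype F] [Algebra k F]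

/-- At a point where the norm is not zero the values are not zero. -/
theorem zev_ne {a b : k[X]} {t c : F} (hc : c ∈ rts a b t) (z : Fin 3 → k[X])
    (hn : aeval t (Pool.Agent.N862.PP.dn a b z) ≠ 0) : zev t c z ≠ 0 := by
  unfold rts at hc
  rw [Finset.mem_filter] at hc
  have h := cf_mul (aeval t a) (aeval t b) (aeval t (z 0)) (aeval t (z 1)) (aeval t (z 2)) c hc.2
  intro h0
  apply hn
  unfold Pool.Agent.N862.PP.dn
  simp only [map_sub, map_mul, map_add, map_neg]
  rw [← h]
  unfold zev at h0
  rw [h0, zero_mul]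

theorem dn_deg (a b : k[X]) (z : Fin 3 → k[X]) (N : ℕ) (hz : ∀ l, (z l).natDegree ≤ N) :
    (Pool.Agent.N862.PP.dn a b z).natDegree ≤ 3 * N + 3 * (a.natDegree + b.natDegree) := by
  have h0 := hz 0
  have h1 := hz 1
  have h2 := hz 2
  have hm : ∀ f g : k[X], ∀ A B : ℕ, f.natDegree ≤ A → g.natDegree ≤ B →
      (f * g).natDegree ≤ A + B := fun f g A B hf hg => natDegree_mul_le.trans (add_le_add hf hg)
  have hs : ∀ f g : k[X], ∀ A : ℕ, f.natDegree ≤ A → g.natDegree ≤ A →
      (f - g).natDegree ≤ A := fun f g A hf hg => (natDegree_sub_le _ _).trans (max_le hf hg)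
  have ha : ∀ f g : k[X], ∀ A : ℕ, f.natDegree ≤ A → g.natDegree ≤ A →
      (f + g).natDegree ≤ A := fun f g A hf hg => (natDegree_add_le _ _).trans (max_le hf hg)
  have e1 : (z 0 - a * z 2).natDegree ≤ N + (a.natDegree + b.natDegree) :=
    hs _ _ _ (by omega) ((hm _ _ _ _ le_rfl h2).trans (by omega))
  have e2 : (-b * z 2 - a * z 1).natDegree ≤ N + (a.natDegree + b.natDegree) :=
    hs _ _ _ ((hm _ _ b.natDegree _ (by rw [natDegree_neg]) h2).trans (by omega))
      ((hm _ _ _ _ le_rfl h1).trans (by omega))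
  have e3 : (-b * z 2).natDegree ≤ N + (a.natDegree + b.natDegree) :=
    (hm _ _ b.natDegree _ (by rw [natDegree_neg]) h2).trans (by omega)
  have e4 : (-b * z 1).natDegree ≤ N + (a.natDegree + b.natDegree) :=
    (hm _ _ b.natDegree _ (by rw [natDegree_neg]) h1).trans (by omega)
  unfold Pool.Agent.N862.PP.dn
  refine ha _ _ _ (hs _ _ _ ?_ ?_) ?_
  · refine (hm _ _ N (2 * N + 2 * (a.natDegree + b.natDegree)) h0 (hs _ _ _ ?_ ?_)).trans (by omega)
    · exact (hm _ _ _ _ e1 e1).trans (by omega)
    · exact (hm _ _ _ _ e2 h1).trans (by omega)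
  · refine (hm _ _ _ (2 * N + (a.natDegree + b.natDegree)) e3 (hs _ _ _ ?_ ?_)).trans (by omega)
    · exact (hm _ _ _ _ h1 e1).trans (by omega)
    · exact (hm _ _ _ _ e2 h2).trans (by omega)
  · refine (hm _ _ _ (2 * N + (a.natDegree + b.natDegree)) e4 (hs _ _ _ ?_ ?_)).trans (by omega)
    · exact (hm _ _ _ _ h1 h1).trans (by omega)
    · exact (hm _ _ _ _ e1 h2).trans (by omega)

end norm

section cub

variable {k K L O : Type} [Field k] [Field K] [Algebra k[X] K] [IsFractionRing k[X] K]
  [Field L] [Algebra K L] [Algebra k[X] L] [IsScalarTower k[X] K L] [CommRing O]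
  [IsDedekindDomain O] [Algebra O L] [IsFractionRing O L] [Algebra k[X] O]
  [IsScalarTower k[X] O L] [IsIntegralClosure O k[X] L] {a b : k[X]} {θ : L}

/-- At the primes not dividing the norm the element is a unit. -/
theorem val_one (h : IsCub K a b θ) {z : Fin 3 → k[X]} {α : L} (hz : Crd θ z α) {Q : k[X]}
    (hQ : Irreducible Q) (hn : ¬ Q ∣ Pool.Agent.N862.PP.dn a b z) (𝔓 : HeightOneSpectrum O)
    (hov : Ov Q 𝔓) : Ev 𝔓 α := by
  obtain ⟨t, ht, htr⟩ := Pool.Agent.N862.PP.exists_theta (K := K) (O := O) h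
  set x : O := algebraMap k[X] O (z 0) + algebraMap k[X] O (z 1) * t +
    algebraMap k[X] O (z 2) * t ^ 2 with hx
  have hxα : algebraMap O L x = α := by
    unfold Crd at hz
    rw [hx, hz]
    simp only [map_add, map_mul, map_pow, ht, ← IsScalarTower.algebraMap_apply k[X] O L]
  have hmul := cf_mul (algebraMap k[X] O a) (algebraMap k[X] O b) (algebraMap k[X] O (z 0))
    (algebraMap k[X] O (z 1)) (algebraMap k[X] O (z 2)) t htr
  have hmul2 : algebraMap k[X] O (Pool.Agent.N862.PP.dn a b z) = x *
      ((cf (algebraMap k[X] O a) (algebraMap k[X] O b) (algebraMap k[X] O (z 0))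
        (algebraMap k[X] O (z 1)) (algebraMap k[X] O (z 2))).1 +
        (cf (algebraMap k[X] O a) (algebraMap k[X] O b) (algebraMap k[X] O (z 0))
        (algebraMap k[X] O (z 1)) (algebraMap k[X] O (z 2))).2.1 * t +
        (cf (algebraMap k[X] O a) (algebraMap k[X] O b) (algebraMap k[X] O (z 0))
        (algebraMap k[X] O (z 1)) (algebraMap k[X] O (z 2))).2.2 * t ^ 2) := by
    rw [hx, hmul]
    unfold Pool.Agent.N862.PP.dn
    simp only [map_sub, map_mul, map_add, map_neg]
  have hxn : x ∉ 𝔓.asIdeal := by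
    intro hm
    have h1 : algebraMap k[X] O (Pool.Agent.N862.PP.dn a b z) ∈ 𝔓.asIdeal := by
      rw [hmul2]
      exact Ideal.mul_mem_right _ _ hm
    have hcop : IsCoprime Q (Pool.Agent.N862.PP.dn a b z) := (hQ.coprime_iff_not_dvd).2 hn
    obtain ⟨u, v, huv⟩ := hcop
    apply 𝔓.isPrime.ne_top
    rw [Ideal.eq_top_iff_one]
    have h2 : (1 : O) = algebraMap k[X] O u * algebraMap k[X] O Q +
        algebraMap k[X] O v * algebraMap k[X] O (Pool.Agent.N862.PP.dn a b z) := by
      rw [← map_mul, ← map_mul, ← map_add, huv, map_one]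
    rw [h2]
    exact Ideal.add_mem _ (Ideal.mul_mem_left _ _ hov) (Ideal.mul_mem_left _ _ h1)
  refine ⟨1, ?_⟩
  rw [map_one, one_pow, ← hxα]
  exact 𝔓.valuation_eq_one_iff_notMem.mpr hxn

/-- The elements `α A` are not constants times squares. -/
theorem not_const_sqL (h : IsCub K a b θ) {α : L} (hα : α ≠ 0)
    (hsq : IsSquare (Algebra.norm K α)) (hns : ¬ IsSquare α) {A : k[X]} (hA0 : A ≠ 0)
    (hA : A = 1 ∨ ∀ (c : k) (y : k[X]), A ≠ C c * y ^ 2) (c : k) (y : L) :
    α * algebraMap k[X] L A ≠ algebraMap k[X] L (C c) * y ^ 2 := by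
  intro he
  have hfd : FiniteDimensional K L := Module.finite_of_finrank_pos (by rw [h.rank]; norm_num)
  have hinjK : Function.Injective (algebraMap k[X] K) := IsFractionRing.injective k[X] K
  have hinj : Function.Injective (algebraMap k[X] L) := by
    rw [IsScalarTower.algebraMap_eq k[X] K L]
    exact (algebraMap K L).injective.comp hinjK
  have hAL : algebraMap k[X] L A ≠ 0 := by
    rw [Ne, map_eq_zero_iff _ hinj]
    exact hA0
  have hAK : algebraMap k[X] K A ≠ 0 := by
    rw [Ne, map_eq_zero_iff _ hinjK]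
    exact hA0
  have hne : algebraMap k[X] L (C c) * y ^ 2 ≠ 0 := by
    rw [← he]
    exact mul_ne_zero hα hAL
  have hcL : algebraMap k[X] L (C c) ≠ 0 := left_ne_zero_of_mul hne
  have hy : y ≠ 0 := by
    intro h0
    apply hne
    rw [h0]
    ring
  have hc : c ≠ 0 := by
    rintro rfl
    apply hcL
    rw [map_zero, map_zero]
  have hcK : algebraMap k[X] K (C c) ≠ 0 := by
    rw [Ne, map_eq_zero_iff _ hinjK]
    simpa using hc
  obtain ⟨r, hr⟩ := hsq
  have hn := congrArg (Algebra.norm K) he
  rw [map_mul, map_mul, map_pow, IsScalarTower.algebraMap_apply k[X] K L A,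
    IsScalarTower.algebraMap_apply k[X] K L (C c), Algebra.norm_algebraMap,
    Algebra.norm_algebraMap, h.rank, hr] at hn
  have hr0 : r ≠ 0 := by
    intro h0
    rw [h0, mul_zero, Algebra.norm_eq_zero_iff] at hr
    exact hα hr
  have hny : Algebra.norm K y ≠ 0 := by
    rw [Ne, Algebra.norm_eq_zero_iff]
    exact hy
  -- `A = c w ^ 2`
  have hw : algebraMap k[X] K A = algebraMap k[X] K (C c) *
      (algebraMap k[X] K (C c) * Algebra.norm K y / (algebraMap k[X] K A * r)) ^ 2 := by
    field_simp
    linear_combination hn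
  rcases hA with rfl | hA
  · rw [map_one, mul_one] at he
    rw [map_one, one_mul] at hw
    apply hns
    refine ⟨algebraMap K L (r / (algebraMap k[X] K (C c) * Algebra.norm K y)) * y, ?_⟩
    have h2 : algebraMap k[X] K (C c) * (algebraMap k[X] K (C c) * Algebra.norm K y) ^ 2 =
        r ^ 2 := by
      have h3 : (1 : K) * r ^ 2 = algebraMap k[X] K (C c) *
        (algebraMap k[X] K (C c) * Algebra.norm K y / r) ^ 2 * r ^ 2 := by rw [← hw]
      rw [one_mul] at h3
      rw [h3]
      field_simp
    have h1 : (r / (algebraMap k[X] K (C c) * Algebra.norm K y)) ^ 2 = algebraMap k[X] K (C c) := by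
      rw [div_pow, ← h2]
      field_simp
    have h4 : algebraMap K L (r / (algebraMap k[X] K (C c) * Algebra.norm K y)) * y *
        (algebraMap K L (r / (algebraMap k[X] K (C c) * Algebra.norm K y)) * y) =
        algebraMap K L ((r / (algebraMap k[X] K (C c) * Algebra.norm K y)) ^ 2) * y ^ 2 := by
      rw [map_pow]
      ring
    rw [h4, h1, he, IsScalarTower.algebraMap_apply k[X] K L (C c)]
  · set w : K := algebraMap k[X] K (C c) * Algebra.norm K y / (algebraMap k[X] K A * r) with hwd
    have hw2 : w ^ 2 = algebraMap k[X] K (C c⁻¹ * A) := by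
      rw [map_mul]
      have h1 : algebraMap k[X] K (C c⁻¹) * algebraMap k[X] K (C c) = 1 := by
        rw [← map_mul, ← C_mul, inv_mul_cancel₀ hc, C_1, map_one]
      rw [hw, ← mul_assoc, h1, one_mul]
    have hint : IsIntegral k[X] w := by
      refine IsIntegral.of_pow (n := 2) (by norm_num) ?_
      rw [hw2]
      exact isIntegral_algebraMap
    obtain ⟨v, hv⟩ := IsIntegrallyClosed.isIntegral_iff.mp hint
    apply hA c v
    apply hinjK
    rw [hw, map_mul, map_pow, hv]

end cub

/-- **KILL**. -/
theorem kill (hW : S_W) (hStk : S_STK) (hDic : S_DIC) : S_KILL := by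
  intro k ι _ _ _ a b p h6 hD
  obtain ⟨C₁, hW⟩ := hW k ι a b p h6 hD
  haveI := Fintype.ofFinite ι
  haveI := Fintype.ofFinite k
  set dd : ℕ := ∑ i, (dsc (a i) (b i)).natDegree with hdd
  set ab : ℕ := ∑ i, ((a i).natDegree + (b i).natDegree) with hab
  refine ⟨(1 / 3) ^ Fintype.card ι / 4, 4 ^ Fintype.card ι * C₁ * (1 + dd) +
    3 * (6 + dd + 3 * ab), by positivity, ?_⟩
  intro i K L O _ _ _ _ _ _ _ _ _ _ _ _ _ _ θ hcub α z N hα hsq hnsq hcrd hz m hm
  obtain ⟨F, _, _, _, hfr, hcd, hsum, hfew⟩ := trs k m hm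
  set nz : k[X] := Pool.Agent.N862.PP.dn (a i) (b i) z with hnz
  have hfd : FiniteDimensional K L := Module.finite_of_finrank_pos (by rw [hcub.rank]; norm_num)
  have hinjK : Function.Injective (algebraMap k[X] K) := IsFractionRing.injective k[X] K
  have hnz0 : nz ≠ 0 := by
    intro h0
    have h1 := Pool.Agent.N862.PP.norm_crd hcub hcrd
    rw [← hnz, h0, map_zero, Algebra.norm_eq_zero_iff] at h1
    exact hα h1
  have hnzd : nz.natDegree ≤ 3 * N + 3 * ab := by
    refine (dn_deg (a i) (b i) z N hz).trans ?_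
    have : (a i).natDegree + (b i).natDegree ≤ ab :=
      Finset.single_le_sum (f := fun i => (a i).natDegree + (b i).natDegree)
        (fun _ _ => Nat.zero_le _) (Finset.mem_univ i)
    omega
  set σ : ι → F → ℝ := fun j t => chi (- aeval t (dsc (a j) (b j))) with hσ
  set n : ι → F → ℝ := fun j t => ((rts (a j) (b j) t).card : ℝ) with hn
  set X' : F → ℝ := fun t => ∑ c ∈ rts (a i) (b i) t, chi (zev t c z) with hX
  have hn0 : ∀ j t, 0 ≤ n j t := fun j t => by rw [hn]; positivity
  have hn3 : ∀ j t, n j t ≤ 3 := fun j t => by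
    rw [hn]; dsimp only; exact_mod_cast card_rts_le (a j) (b j) t
  have hX3 : ∀ t, |X' t| ≤ n i t := by
    intro t
    rw [hX, hn]
    dsimp only
    refine (Finset.abs_sum_le_sum_abs _ _).trans ?_
    refine (Finset.sum_le_sum fun c _ => abs_chi_le _).trans ?_
    simp
  set E : ℝ := C₁ * (1 + dd + N) * √(cd F) with hE
  have hE1 : C₁ * √(cd F) ≤ E := by
    refine mul_le_mul_of_nonneg_right ?_ (Real.sqrt_nonneg _)
    have : (0 : ℝ) ≤ C₁ * (dd + N) := by positivity
    linarith
  have hE2 : ∀ M : ℕ, M ≤ dd + N → C₁ * (1 + (M : ℝ)) * √(cd F) ≤ E := by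
    intro M hM
    refine mul_le_mul_of_nonneg_right ?_ (Real.sqrt_nonneg _)
    have h1 : (M : ℝ) ≤ dd + N := by exact_mod_cast hM
    have h5 : (0 : ℝ) ≤ C₁ := by positivity
    nlinarith
  have hAns : ∀ B : Finset ι, B ≠ ∅ → ∀ (c : k) (y : k[X]),
      ∏ j ∈ B, (-dsc (a j) (b j)) ≠ C c * y ^ 2 := by
    intro B hB
    obtain ⟨j, hj⟩ := Finset.nonempty_iff_ne_empty.2 hB
    obtain ⟨h3, h4⟩ := exact_B hD B j hj
    exact not_const_sq (hD.pirr j) h3 h4
  have hprod : ∀ (B : Finset ι) (t : F), ∏ j ∈ B, σ j t =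
      chi (aeval t (∏ j ∈ B, (-dsc (a j) (b j)))) := by
    intro B t
    rw [map_prod, chi_prod]
    simp only [map_neg]
    rfl
  -- the characters of the discriminants
  have hc1 : ∀ B : Finset ι, B ≠ ∅ → ∀ J : Finset ι,
      |∑ t : F, (∏ j ∈ B, σ j t) * ∏ j ∈ J, n j t| ≤ E := by
    intro B hB J
    simp_rw [hprod]
    refine ((hW J).2.1 _ (hAns B hB) F).trans (hE2 _ ?_)
    exact (natDegree_prod_dsc a b B).trans (by omega)
  -- the characters with `α`
  have hc2 : ∀ B : Finset ι, ∀ J : Finset ι, i ∉ J →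
      |∑ t : F, (∏ j ∈ B, σ j t) * X' t * ∏ j ∈ J, n j t| ≤ E := by
    intro B J hJ
    set A : k[X] := ∏ j ∈ B, (-dsc (a j) (b j)) with hA
    have hA0 : A ≠ 0 := Finset.prod_ne_zero_iff.2 fun j _ => neg_ne_zero.2 (dsc_ne hD j)
    have hA1 : A = 1 ∨ ∀ (c : k) (y : k[X]), A ≠ C c * y ^ 2 := by
      by_cases hB : B = ∅
      · left; rw [hA, hB, Finset.prod_empty]
      · right; exact hAns B hB
    have hcrd' : Crd θ (fun l => A * z l) (α * algebraMap k[X] L A) := by
      unfold Crd at hcrd ⊢
      rw [hcrd]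
      simp only [map_mul]
      ring
    have h1 := (hW J).2.2 i hJ K L θ hcub (fun l => A * z l) (α * algebraMap k[X] L A)
      (dd + N) hcrd' (fun l => natDegree_mul_le.trans (add_le_add (natDegree_prod_dsc a b B) (hz l)))
      (fun c y => not_const_sqL hcub hα hsq hnsq hA0 hA1 c y) F
    refine le_trans (le_of_eq ?_) (h1.trans (hE2 _ le_rfl))
    congr 1
    refine Finset.sum_congr rfl fun t _ => ?_
    rw [hprod, ← Finset.sum_mul]
    congr 1
    rw [hX]
    dsimp only
    rw [Finset.mul_sum]
    refine Finset.sum_congr rfl fun c _ => ?_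
    rw [← chi_mul]
    congr 1
    unfold zev
    simp only [map_mul]
    ring
  set I : Finset ι := Finset.univ.erase i with hI
  have hiI : i ∉ I := Finset.notMem_erase i _
  have hIc : I.card = Fintype.card ι - 1 := by
    rw [hI, Finset.card_erase_of_mem (Finset.mem_univ _), Finset.card_univ]
  have hι : 0 < Fintype.card ι := Fintype.card_pos_iff.2 ⟨i⟩
  -- the four sums
  have hs1 : |(∑ t : F, n i t * ∏ j ∈ I, (σ j t + (2 - n j t))) - cd F| ≤ 4 ^ I.card * E := by
    refine expand_s (n i) σ n (cd F) E I ?_ ?_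
    · intro J hJ
      have hiJ : i ∉ J := fun h => hiI (hJ h)
      have h1 := (hW (insert i J)).1 F
      simp_rw [Finset.prod_insert hiJ] at h1
      exact h1.trans hE1
    · intro B hB hB0 J hJ hJB
      have hiJ : i ∉ J := fun h => hiI (hJ h)
      have h1 := hc1 B hB0 (insert i J)
      simp_rw [Finset.prod_insert hiJ] at h1
      refine le_trans (le_of_eq ?_) h1
      congr 1
      exact Finset.sum_congr rfl fun t _ => by ring
  have hs2 : |∑ t : F, (σ i t * n i t) * ∏ j ∈ I, (σ j t + (2 - n j t))| ≤ 4 ^ I.card * E := by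
    have := expand_s (fun t => σ i t * n i t) σ n 0 E I ?_ ?_
    · simpa using this
    · intro J hJ
      have hiJ : i ∉ J := fun h => hiI (hJ h)
      have h1 := hc1 {i} (Finset.singleton_ne_empty i) (insert i J)
      simp_rw [Finset.prod_insert hiJ, Finset.prod_singleton] at h1
      rw [sub_zero]
      refine le_trans (le_of_eq ?_) h1
      congr 1
      exact Finset.sum_congr rfl fun t _ => by ring
    · intro B hB hB0 J hJ hJB
      have hiJ : i ∉ J := fun h => hiI (hJ h)
      have hiB : i ∉ B := fun h => hiI (hB h)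
      have h1 := hc1 (insert i B) (Finset.insert_ne_empty i B) (insert i J)
      simp_rw [Finset.prod_insert hiJ, Finset.prod_insert hiB] at h1
      refine le_trans (le_of_eq ?_) h1
      congr 1
      exact Finset.sum_congr rfl fun t _ => by ring
  have hs3 : |∑ t : F, X' t * ∏ j ∈ I, (σ j t + (2 - n j t))| ≤ 4 ^ I.card * E := by
    have := expand_s X' σ n 0 E I ?_ ?_
    · simpa using this
    · intro J hJ
      have hiJ : i ∉ J := fun h => hiI (hJ h)
      have h1 := hc2 ∅ J hiJ
      simp_rw [Finset.prod_empty, one_mul] at h1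
      rwa [sub_zero]
    · intro B hB hB0 J hJ hJB
      have hiJ : i ∉ J := fun h => hiI (hJ h)
      have h1 := hc2 B J hiJ
      refine le_trans (le_of_eq ?_) h1
      congr 1
      exact Finset.sum_congr rfl fun t _ => by ring
  have hs4 : |∑ t : F, (σ i t * X' t) * ∏ j ∈ I, (σ j t + (2 - n j t))| ≤ 4 ^ I.card * E := by
    have := expand_s (fun t => σ i t * X' t) σ n 0 E I ?_ ?_
    · simpa using this
    · intro J hJ
      have hiJ : i ∉ J := fun h => hiI (hJ h)
      have h1 := hc2 {i} J hiJ
      simp_rw [Finset.prod_singleton] at h1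
      rwa [sub_zero]
    · intro B hB hB0 J hJ hJB
      have hiJ : i ∉ J := fun h => hiI (hJ h)
      have hiB : i ∉ B := fun h => hiI (hB h)
      have h1 := hc2 (insert i B) J hiJ
      simp_rw [Finset.prod_insert hiB] at h1
      refine le_trans (le_of_eq ?_) h1
      congr 1
      exact Finset.sum_congr rfl fun t _ => by ring
  -- pointwise
  set cond : k[X] → Prop := fun Q => (∀ j, ¬ Q ∣ dsc (a j) (b j)) ∧
          (∀ j, j ≠ i → Ty3 (a j) (b j) Q) ∧ Ty12 (a i) (b i) Q ∧ ¬ Tr O Q α with hcond
  set φ : k[X] → ℝ := fun Q => if cond Q then 1 else 0 with hφ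
  set G : F → Prop := fun t => (minpoly k t).natDegree = m ∧
    (∀ j, aeval t (dsc (a j) (b j)) ≠ 0) ∧ aeval t nz ≠ 0 with hG
  set P1 : F → ℝ := fun t => ∏ j ∈ I, ((σ j t + (2 - n j t)) / 3) with hP1
  set P2 : F → ℝ := fun t => (1 - σ i t) * (n i t - X' t) / 4 with hP2
  have hP1a : ∀ t, |P1 t| ≤ 1 := by
    intro t
    rw [hP1]
    dsimp only
    rw [Finset.abs_prod]
    exact Finset.prod_le_one (fun _ _ => abs_nonneg _) fun j _ =>
      abs_fac (abs_chi_le _) (hn0 _ _) (hn3 _ _)
  have hP2a : ∀ t, |P2 t| ≤ 3 := by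
    intro t
    rw [hP2]
    dsimp only
    have h1 := abs_le.1 (hX3 t)
    have h2 := hn3 i t
    have h3 : |σ i t| ≤ 1 := abs_chi_le _
    rw [abs_le] at h3
    rw [abs_div, abs_mul, abs_of_nonneg (by linarith : 0 ≤ 1 - σ i t),
      abs_of_nonneg (by linarith : 0 ≤ n i t - X' t)]
    norm_num
    nlinarith
  have hpt : ∀ t : F, P1 t * P2 t ≤
      (if (minpoly k t).natDegree = m then φ (minpoly k t) else 0) + (if G t then 0 else 3) := by
    intro t
    have hprodle : |P1 t * P2 t| ≤ 3 := by
      rw [abs_mul]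
      calc |P1 t| * |P2 t| ≤ 1 * 3 := mul_le_mul (hP1a t) (hP2a t) (abs_nonneg _) zero_le_one
        _ = 3 := one_mul _
    by_cases hGt : G t
    · rw [if_pos hGt, add_zero, if_pos hGt.1]
      obtain ⟨hdeg, hdsc, hnzt⟩ := hGt
      have hφ0 : 0 ≤ φ (minpoly k t) := by
        rw [hφ]; dsimp only; split_ifs <;> norm_num
      rcases hStk k F (a i) (b i) t h6 (hdsc i) with ⟨h2, -⟩ | ⟨h2, h4⟩
      · -- `σ i = 1`
        have : P2 t = 0 := by
          rw [hP2, hσ]
          dsimp only
          rw [h2]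
          norm_num
        rw [this, mul_zero]
        exact hφ0
      · obtain ⟨c, hc⟩ := Finset.card_eq_one.1 h4
        have hzc : zev t c z ≠ 0 := zev_ne (by rw [hc]; exact Finset.mem_singleton_self c) z hnzt
        have hP2v : P2 t = (1 - chi (zev t c z)) / 2 := by
          rw [hP2, hσ, hn, hX]
          dsimp only
          rw [h2, h4, hc, Finset.sum_singleton]
          push_cast
          ring
        by_cases hP10 : P1 t = 0
        · rw [hP10, zero_mul]; exact hφ0
        · by_cases hχ : chi (zev t c z) = 1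
          · rw [hP2v, hχ, sub_self, zero_div, mul_zero]; exact hφ0
          · have hχ' : chi (zev t c z) = -1 := by
              unfold chi at hχ ⊢
              rcases quadraticChar_dichotomy (F := F) hzc with h | h
              · rw [h] at hχ; exact absurd (by norm_num) hχ
              · rw [h]; norm_num
            have hcn : cond (minpoly k t) := by
              have hnd : ¬ minpoly k t ∣ dsc (a i) (b i) := fun h =>
                hdsc i ((aeval_zero_iff t _).2 h)
              obtain ⟨-, hd1, hd2⟩ := hDic k K L O (a i) (b i) θ h6 hcub F t (by rw [hdeg, hfr]) hnd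
              refine ⟨fun j h => hdsc j ((aeval_zero_iff t _).2 h), ?_, hd1 h4, ?_⟩
              · intro j hj
                rw [hP1] at hP10
                dsimp only at hP10
                rw [Finset.prod_eq_zero_iff] at hP10
                push Not at hP10
                have h1 := hP10 j (by rw [hI]; simp [hj])
                have h3 : (rts (a j) (b j) t).card = 0 := by
                  rcases hStk k F (a j) (b j) t h6 (hdsc j) with ⟨h5, h6 | h6⟩ | ⟨h5, h6⟩
                  · exact h6
                  · exfalso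
                    apply h1
                    rw [hσ, hn]
                    dsimp only
                    rw [h5, h6]
                    norm_num
                  · exfalso
                    apply h1
                    rw [hσ, hn]
                    dsimp only
                    rw [h5, h6]
                    norm_num
                intro c' hc'
                unfold RtM at hc'
                have h5 := (aeval_zero_iff t _).2 hc'
                have h6 : aeval t c' ∈ rts (a j) (b j) t := by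
                  unfold rts
                  rw [Finset.mem_filter]
                  refine ⟨Finset.mem_univ _, ?_⟩
                  simpa using h5
                rw [Finset.card_eq_zero] at h3
                rw [h3] at h6
                simp at h6
              · have hint : IsIntegral k t := Algebra.IsIntegral.isIntegral t
                have hQi := minpoly.irreducible hint
                have hQn : ¬ minpoly k t ∣ nz := fun h => hnzt ((aeval_zero_iff t _).2 h)
                obtain ⟨h7, -⟩ := hd2 α z hα hsq (fun 𝔓 hov => val_one hcub hcrd hQi hQn 𝔓 hov)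
                  hcrd (fun c hc => zev_ne hc z hnzt)
                rw [h7]
                intro h8
                exact hχ (h8 c (by rw [hc]; exact Finset.mem_singleton_self c))
            rw [hφ]
            dsimp only
            rw [if_pos hcn, hP2v, hχ']
            have := (abs_le.1 (hP1a t)).2
            linarith
    · rw [if_neg hGt]
      have h1 : (0 : ℝ) ≤ (if (minpoly k t).natDegree = m then φ (minpoly k t) else 0) := by
        split_ifs
        · rw [hφ]; dsimp only; split_ifs <;> norm_num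
        · exact le_refl _
      have h2 := (le_abs_self _).trans hprodle
      linarith
  have hsum2 : ∑ t : F, P1 t * P2 t ≤
      (m : ℝ) * ∑ Q ∈ irrD k m, φ Q + 3 * ((Finset.univ.filter fun t : F => ¬ G t).card : ℝ) := by
    refine (Finset.sum_le_sum fun t _ => hpt t).trans (le_of_eq ?_)
    rw [Finset.sum_add_distrib, hsum φ, ← Finset.sum_filter]
    congr 1
    rw [Finset.sum_ite, Finset.sum_const_zero, zero_add, Finset.sum_const, nsmul_eq_mul, mul_comm]
  have hbad : ((Finset.univ.filter fun t : F => ¬ G t).card : ℝ) ≤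
      2 * √(cd F) + dd + (3 * N + 3 * ab) := by
    have h1 : (Finset.univ.filter fun t : F => ¬ G t) ⊆
        (Finset.univ.filter fun t : F => (minpoly k t).natDegree ≠ m) ∪
        ((Finset.univ.biUnion fun j => Finset.univ.filter fun t : F =>
          aeval t (dsc (a j) (b j)) = 0) ∪
        (Finset.univ.filter fun t : F => aeval t nz = 0)) := by
      intro t ht
      rw [Finset.mem_filter] at ht
      rw [Finset.mem_union, Finset.mem_union, Finset.mem_filter, Finset.mem_biUnion,
        Finset.mem_filter]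
      by_contra hcon
      push Not at hcon
      obtain ⟨h1, h2, h3⟩ := hcon
      apply ht.2
      refine ⟨h1 (Finset.mem_univ _), fun j h => ?_, h3 (Finset.mem_univ _)⟩
      exact h2 j (Finset.mem_univ _) (by simp [h])
    have h2 := (Finset.card_le_card h1).trans ((Finset.card_union_le _ _).trans
      (add_le_add le_rfl ((Finset.card_union_le _ _).trans (add_le_add Finset.card_biUnion_le
        le_rfl))))
    have h3 : ∑ j : ι, (Finset.univ.filter fun t : F => aeval t (dsc (a j) (b j)) = 0).card ≤ dd :=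
      Finset.sum_le_sum fun j _ => card_zero_le (dsc_ne hD j)
    have h4 : (Finset.univ.filter fun t : F => aeval t nz = 0).card ≤ 3 * N + 3 * ab :=
      (card_zero_le hnz0).trans hnzd
    have h5 : ((Finset.univ.filter fun t : F => ¬ G t).card : ℝ) ≤
        ((Finset.univ.filter fun t : F => (minpoly k t).natDegree ≠ m).card : ℝ) +
          (dd + (3 * N + 3 * ab)) := by
      exact_mod_cast h2.trans (add_le_add le_rfl (add_le_add h3 h4))
    linarith
  have hfac : ∑ t : F, P1 t * P2 t = (1 / 3) ^ I.card / 4 *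
      ((∑ t : F, n i t * ∏ j ∈ I, (σ j t + (2 - n j t))) -
        (∑ t : F, (σ i t * n i t) * ∏ j ∈ I, (σ j t + (2 - n j t))) -
        (∑ t : F, X' t * ∏ j ∈ I, (σ j t + (2 - n j t))) +
        ∑ t : F, (σ i t * X' t) * ∏ j ∈ I, (σ j t + (2 - n j t))) := by
    rw [← Finset.sum_sub_distrib, ← Finset.sum_sub_distrib, ← Finset.sum_add_distrib,
      Finset.mul_sum]
    refine Finset.sum_congr rfl fun t _ => ?_
    rw [hP1, hP2]
    dsimp only
    rw [Finset.prod_div_distrib, Finset.prod_const, one_div_pow]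
    ring
  have hφcard : ∑ Q ∈ irrD k m, φ Q = (((irrD k m).filter fun Q => cond Q).card : ℝ) := by
    rw [hφ]
    rw [Finset.sum_ite, Finset.sum_const_zero, add_zero, Finset.sum_const, nsmul_eq_mul, mul_one]
  rw [hfac, hφcard] at hsum2
  suffices hsuf : (1 / 3 : ℝ) ^ Fintype.card ι / 4 * (Nat.card k : ℝ) ^ m / m -
      ((4 ^ Fintype.card ι * C₁ * (1 + dd) + 3 * (6 + dd + 3 * ab) : ℕ) : ℝ) * (1 + N) *
        √((Nat.card k : ℝ) ^ m) ≤ (((irrD k m).filter fun Q => cond Q).card : ℝ) by
    convert hsuf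
  set Nc : ℝ := (((irrD k m).filter fun Q => cond Q).card : ℝ) with hNc
  rw [← hcd]
  have hs1' : 1 ≤ √(cd F) := one_le_sqrt_cd
  have hcdp : 0 ≤ cd F := by unfold cd; positivity
  have hm1 : (1 : ℝ) ≤ m := by exact_mod_cast hm
  have hp3 : (1 / 3 : ℝ) ^ Fintype.card ι ≤ (1 / 3) ^ I.card :=
    pow_le_pow_of_le_one (by norm_num) (by norm_num) (by omega)
  have hp31 : (1 / 3 : ℝ) ^ I.card ≤ 1 := pow_le_one₀ (by norm_num) (by norm_num)
  have hp30 : (0 : ℝ) < (1 / 3 : ℝ) ^ I.card := by positivity
  have h4I : (4 : ℝ) ^ I.card * 4 = 4 ^ Fintype.card ι := by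
    rw [← pow_succ, hIc]
    congr 1
    omega
  have hE0 : 0 ≤ E := by rw [hE]; positivity
  have hkey : (1 / 3 : ℝ) ^ Fintype.card ι / 4 * cd F -
      (4 ^ Fintype.card ι * C₁ * (1 + dd) + 3 * (6 + dd + 3 * ab)) * (1 + N) * √(cd F) ≤
      m * Nc := by
    have h1 : (1 / 3 : ℝ) ^ I.card / 4 * (cd F - 4 * (4 ^ I.card * E)) ≤
        m * Nc + 3 * (2 * √(cd F) + dd + (3 * N + 3 * ab)) := by
      refine le_trans ?_ (hsum2.trans (add_le_add le_rfl (by linarith)))
      refine mul_le_mul_of_nonneg_left ?_ (by positivity)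
      have e1 := (abs_le.1 hs1).1
      have e2 := (abs_le.1 hs2).2
      have e3 := (abs_le.1 hs3).2
      have e4 := (abs_le.1 hs4).1
      linarith
    have h2 : (1 / 3 : ℝ) ^ Fintype.card ι / 4 * cd F ≤ (1 / 3 : ℝ) ^ I.card / 4 * cd F := by
      gcongr
    have h3 : (1 / 3 : ℝ) ^ I.card / 4 * (4 * (4 ^ I.card * E)) ≤
        4 ^ Fintype.card ι * C₁ * (1 + dd) * (1 + N) * √(cd F) := by
      have h5 : (1 / 3 : ℝ) ^ I.card / 4 * (4 * (4 ^ I.card * E)) =
          (1 / 3 : ℝ) ^ I.card * (4 ^ I.card * E) := by ring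
      have h6 : (1 / 3 : ℝ) ^ I.card * (4 ^ I.card * E) ≤ 1 * (4 ^ I.card * E) :=
        mul_le_mul_of_nonneg_right hp31 (by positivity)
      have h7 : (4 : ℝ) ^ I.card * E ≤ 4 ^ Fintype.card ι * E := by
        refine mul_le_mul_of_nonneg_right ?_ hE0
        have : (0 : ℝ) < 4 ^ I.card := by positivity
        linarith
      have h8 : (1 + dd + N : ℝ) ≤ (1 + dd) * (1 + N) := by
        have : (0 : ℝ) ≤ (dd : ℝ) * (N : ℝ) := by positivity
        nlinarith
      have h9 : (4 : ℝ) ^ Fintype.card ι * E ≤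
          4 ^ Fintype.card ι * C₁ * (1 + dd) * (1 + N) * √(cd F) := by
        calc (4 : ℝ) ^ Fintype.card ι * E = 4 ^ Fintype.card ι * C₁ * √(cd F) * (1 + dd + N) := by
              rw [hE]; ring
          _ ≤ 4 ^ Fintype.card ι * C₁ * √(cd F) * ((1 + dd) * (1 + N)) :=
              mul_le_mul_of_nonneg_left h8 (by positivity)
          _ = _ := by ring
      linarith
    have h4 : 3 * (2 * √(cd F) + dd + (3 * N + 3 * ab)) ≤
        3 * (6 + dd + 3 * ab) * (1 + N) * √(cd F) := by
      have e1 : (0 : ℝ) ≤ (dd : ℝ) := by positivity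
      have e2 : (0 : ℝ) ≤ (ab : ℝ) := by positivity
      have e3 : (0 : ℝ) ≤ (N : ℝ) := by positivity
      have e4 : (2 + dd + 3 * N + 3 * ab : ℝ) * √(cd F) ≤
          (6 + dd + 3 * ab) * (1 + N) * √(cd F) := by
        refine mul_le_mul_of_nonneg_right ?_ (by linarith)
        nlinarith [mul_nonneg e1 e3, mul_nonneg e2 e3]
      have e5 : (dd + 3 * N + 3 * ab : ℝ) ≤ (dd + 3 * N + 3 * ab : ℝ) * √(cd F) :=
        le_mul_of_one_le_right (by positivity) hs1'
      nlinarith
    nlinarith
  have h1 : (1 / 3 : ℝ) ^ Fintype.card ι / 4 * cd F / m ≤ Nc +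
      (4 ^ Fintype.card ι * C₁ * (1 + dd) + 3 * (6 + dd + 3 * ab)) * (1 + N) * √(cd F) := by
    rw [div_le_iff₀ (by linarith)]
    have h2 : (0 : ℝ) ≤ (4 ^ Fintype.card ι * C₁ * (1 + dd) + 3 * (6 + dd + 3 * ab)) *
        (1 + N) * √(cd F) := by
      positivity
    nlinarith
  push_cast
  linarith

end Run7.h437.TS
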